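import Mathlib

/-!
Scalar sequence lemma: lower bound for the energies.
-/

set_option autoImplicit false

open Real Filter Topology Set

namespace Pool.Agent.Helper39_Wave

/-- Bernoulli with a negative exponent. -/
theorem one_sub_mul_le_rpow_neg {γ x : ℝ} (hγ : 0 ≤ γ) (hx : 0 ≤ x) :
    1 - γ * x ≤ (1 + x) ^ (-γ) := by
  have h0 : 0 < 1 + x := by linarith
  rw [Real.rpow_def_of_pos h0]
  have h1 : Real.log (1 + x) ≤ x := by
    have := Real.log_le_sub_one_of_pos h0
    linarith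
  have h2 := Real.add_one_le_exp (Real.log (1 + x) * -γ)
  nlinarith

theorem rpow_neg_sub_le {γ a b : ℝ} (hγ : 0 ≤ γ) (hb : 0 < b) (hab : b ≤ a) :
    b ^ (-γ) - a ^ (-γ) ≤ γ * (b ^ (-(γ + 1)) * (a - b)) := by
  have h1 := one_sub_mul_le_rpow_neg hγ (x := (a - b) / b) (div_nonneg (by linarith) hb.le)
  have h2 : 1 + (a - b) / b = a / b := by field_simp; ring
  have ha : 0 < a := lt_of_lt_of_le hb hab
  rw [h2, Real.div_rpow ha.le hb.le, le_div_iff₀ (Real.rpow_pos_of_pos hb _)] at h1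
  have h3 : b ^ (-(γ + 1)) = b ^ (-γ) / b := by
    rw [show -(γ + 1) = -γ - 1 by ring, Real.rpow_sub_one hb.ne']
  rw [h3]
  have h4 : γ * (b ^ (-γ) / b * (a - b)) = γ * ((a - b) / b) * b ^ (-γ) := by ring
  rw [h4]
  linarith

theorem seq_lower {α : ℝ} (hα : 0 < α) {E ε : ℕ → ℝ} {C : ℝ} (hE : ∀ k, 0 < E k)
    (hanti : ∀ k, E (k + 1) ≤ E k) (hε0 : ∀ k, 0 ≤ ε k)
    (hε : ∀ k : ℕ, ε k ≤ C / ((k : ℝ) + 1) ^ 2)
    (hs : ∀ k : ℕ, E k - E (k + 1) ≤ C / ((k : ℝ) + 1) * E k)
    (hR : ∀ k, E (k + 1) * ((E (k + 1) - E (k + 2)) - (E k - E (k + 1)) -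
      ε k * (E k - E (k + 2))) ≤ -((α + 2) / 2) * (E (k + 1) - E (k + 2)) ^ 2) :
    ∃ c : ℝ, 0 < c ∧ ∀ k : ℕ, c * ((k : ℝ) + 1) ^ (-(2 / α)) ≤ E k := by
  have hC : 0 ≤ C := by
    have h1 := (hε0 0).trans (hε 0)
    simpa using h1
  set β : ℝ := (α + 2) / 2 with hβ
  have hβ1 : 1 ≤ β := by rw [hβ]; linarith
  -- ratio
  set r : ℕ → ℝ := fun k => (E k - E (k + 1)) * E (k + 1) ^ (-β) with hr
  have hr0 : ∀ k, 0 ≤ r k := fun k =>
    mul_nonneg (by linarith [hanti k]) (Real.rpow_nonneg (hE _).le _)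
  set D : ℝ := 3 * C + 2 * β ^ 2 * C ^ 2 with hD
  have hD0 : 0 ≤ D := by positivity
  have hstep : ∀ k : ℕ, (β ^ 2 * C ^ 2 + C) / ((k : ℝ) + 1) ^ 2 ≤ 1 / 2 →
      r (k + 1) ≤ r k * Real.exp (D / ((k : ℝ) + 1) ^ 2) := by
    intro k hk
    have hk1 : (0 : ℝ) < (k : ℝ) + 1 := by positivity
    obtain ⟨s, hsdef⟩ : ∃ s : ℝ, s = (E (k + 1) - E (k + 2)) / E (k + 1) := ⟨_, rfl⟩
    have hE1 := hE (k + 1)
    have hE2 := hE (k + 2)
    have hs0 : 0 ≤ s := by
      have h1 : 0 ≤ E (k + 1) - E (k + 2) := sub_nonneg.mpr (hanti (k + 1))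
      rw [hsdef]
      exact div_nonneg h1 hE1.le
    have hs1 : s < 1 := by
      rw [hsdef, div_lt_one hE1]; linarith
    have hsC : s ≤ C / ((k : ℝ) + 1) := by
      have h1 := hs (k + 1)
      have h2 : s ≤ C / (((k + 1 : ℕ) : ℝ) + 1) := by
        rw [hsdef, div_le_iff₀ hE1]
        exact h1
      refine h2.trans ?_
      apply div_le_div_of_nonneg_left hC hk1
      push_cast
      linarith
    have hsE : E (k + 2) = E (k + 1) * (1 - s) := by
      rw [hsdef]; field_simp; ring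
    have hse : E (k + 1) - E (k + 2) = E (k + 1) * s := by rw [hsE]; ring
    set e0 : ℝ := E k - E (k + 1) with he0
    have he0' : 0 ≤ e0 := by rw [he0]; linarith [hanti k]
    set e1 : ℝ := E (k + 1) - E (k + 2) with he1
    have he1' : 0 ≤ e1 := by rw [he1]; linarith [hanti (k + 1)]
    have hR' := hR k
    have hsum : E k - E (k + 2) = e0 + e1 := by rw [he0, he1]; ring
    rw [hsum] at hR'
    have hR2 : e1 * (1 + β * s - ε k) ≤ e0 * (1 + ε k) := by
      have h1 : E (k + 1) * (e1 * (1 + β * s - ε k)) ≤ E (k + 1) * (e0 * (1 + ε k)) := by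
        have h2 : e1 ^ 2 = e1 * (E (k + 1) * s) := by rw [← hse]; ring
        rw [h2] at hR'
        linarith
      exact le_of_mul_le_mul_left h1 hE1
    have hsq : s ^ 2 ≤ C ^ 2 / ((k : ℝ) + 1) ^ 2 := by
      have := pow_le_pow_left₀ hs0 hsC 2
      rw [div_pow] at this
      exact this
    set x : ℝ := β ^ 2 * s ^ 2 + ε k with hx
    have hx0 : 0 ≤ x := by
      have := hε0 k
      positivity
    have hxle : x ≤ 1 / 2 := by
      refine le_trans ?_ hk
      rw [hx, add_div, mul_div_assoc]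
      exact add_le_add (mul_le_mul_of_nonneg_left hsq (by positivity)) (hε k)
    -- Bernoulli
    have h1s : 0 < 1 - s := by linarith
    have hbern : 1 - β * s ≤ (1 - s) ^ β := by
      have h1 := one_add_mul_self_le_rpow_one_add (s := -s) (p := β) (by linarith) hβ1
      have h2 : 1 + -s = 1 - s := by ring
      rw [h2] at h1
      linarith
    have hpos1 : 0 < (1 - s) ^ β := Real.rpow_pos_of_pos h1s _
    -- `(1 - x) ≤ (1 + β s - ε) (1 - s)^β`
    have hεk := hε0 k
    have hfac : 1 - x ≤ (1 + β * s - ε k) * (1 - s) ^ β := by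
      have hb : 0 ≤ 1 + β * s - ε k := by
        have h1 : ε k ≤ x := by
          have : 0 ≤ β ^ 2 * s ^ 2 := by positivity
          rw [hx]; linarith
        have h2 : 0 ≤ β * s := by positivity
        linarith
      have h1 := mul_le_mul_of_nonneg_left hbern hb
      have h2 : 1 - x ≤ (1 + β * s - ε k) * (1 - β * s) := by
        rw [hx]
        have : 0 ≤ ε k * (β * s) := by positivity
        have h3 : (1 + β * s - ε k) * (1 - β * s) =
            1 - (β ^ 2 * s ^ 2 + ε k) + ε k * (β * s) := by ring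
        linarith
      linarith
    have hmain : e1 * (1 - x) ≤ e0 * (1 + ε k) * (1 - s) ^ β := by
      calc e1 * (1 - x) ≤ e1 * ((1 + β * s - ε k) * (1 - s) ^ β) :=
            mul_le_mul_of_nonneg_left hfac he1'
        _ = (e1 * (1 + β * s - ε k)) * (1 - s) ^ β := by ring
        _ ≤ (e0 * (1 + ε k)) * (1 - s) ^ β := mul_le_mul_of_nonneg_right hR2 hpos1.le
    have hE2r : E (k + 2) ^ (-β) = E (k + 1) ^ (-β) * ((1 - s) ^ β)⁻¹ := by
      rw [hsE, Real.mul_rpow hE1.le h1s.le, Real.rpow_neg h1s.le]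
    have hEb : 0 < E (k + 1) ^ (-β) := Real.rpow_pos_of_pos hE1 _
    have hr1 : r (k + 1) * (1 - x) ≤ r k * (1 + ε k) := by
      have e1' : r (k + 1) = e1 * (E (k + 1) ^ (-β) * ((1 - s) ^ β)⁻¹) := by
        simp only [hr]
        rw [show k + 1 + 1 = k + 2 from rfl, hE2r]
      have e2' : r k = e0 * E (k + 1) ^ (-β) := rfl
      rw [e1', e2']
      calc e1 * (E (k + 1) ^ (-β) * ((1 - s) ^ β)⁻¹) * (1 - x) =
            (e1 * (1 - x)) * (E (k + 1) ^ (-β) * ((1 - s) ^ β)⁻¹) := by ring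
        _ ≤ (e0 * (1 + ε k) * (1 - s) ^ β) * (E (k + 1) ^ (-β) * ((1 - s) ^ β)⁻¹) :=
            mul_le_mul_of_nonneg_right hmain (by positivity)
        _ = e0 * E (k + 1) ^ (-β) * (1 + ε k) := by field_simp
    -- conclude
    have hexp1 : 1 ≤ (1 - x) * Real.exp (2 * x) := by
      have h1 := Real.add_one_le_exp (2 * x)
      have h2 := mul_le_mul_of_nonneg_left h1 (by linarith : 0 ≤ 1 - x)
      have h3 : 0 ≤ x * (1 - 2 * x) := mul_nonneg hx0 (by linarith)
      linarith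
    have hexp2 : 1 + ε k ≤ Real.exp (ε k) := by
      have := Real.add_one_le_exp (ε k)
      linarith
    have h3 : r (k + 1) ≤ r k * Real.exp (2 * x + ε k) := by
      calc r (k + 1) = r (k + 1) * 1 := by ring
        _ ≤ r (k + 1) * ((1 - x) * Real.exp (2 * x)) :=
            mul_le_mul_of_nonneg_left hexp1 (hr0 _)
        _ = (r (k + 1) * (1 - x)) * Real.exp (2 * x) := by ring
        _ ≤ (r k * (1 + ε k)) * Real.exp (2 * x) :=
            mul_le_mul_of_nonneg_right hr1 (Real.exp_pos _).le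
        _ ≤ (r k * Real.exp (ε k)) * Real.exp (2 * x) := by
            apply mul_le_mul_of_nonneg_right _ (Real.exp_pos _).le
            exact mul_le_mul_of_nonneg_left hexp2 (hr0 _)
        _ = r k * Real.exp (2 * x + ε k) := by rw [Real.exp_add]; ring
    refine h3.trans ?_
    apply mul_le_mul_of_nonneg_left _ (hr0 _)
    apply Real.exp_le_exp.mpr
    have h4 : D / ((k : ℝ) + 1) ^ 2 = 3 * (C / ((k : ℝ) + 1) ^ 2) +
        2 * β ^ 2 * (C ^ 2 / ((k : ℝ) + 1) ^ 2) := by rw [hD]; ring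
    rw [h4, hx]
    have h5 := mul_le_mul_of_nonneg_left hsq (by positivity : 0 ≤ 2 * β ^ 2)
    have h6 := hε k
    linarith
  -- choice of `k0`
  obtain ⟨k0, hk0, hk0'⟩ : ∃ k0 : ℕ, 1 ≤ k0 ∧ ∀ k : ℕ, k0 ≤ k →
      (β ^ 2 * C ^ 2 + C) / ((k : ℝ) + 1) ^ 2 ≤ 1 / 2 := by
    obtain ⟨n, hn⟩ := exists_nat_ge (2 * (β ^ 2 * C ^ 2 + C))
    refine ⟨max 1 n, le_max_left _ _, ?_⟩
    intro k hk
    have h1 : (n : ℝ) ≤ k := by exact_mod_cast (le_max_right 1 n).trans hk
    have h0 : (0 : ℝ) ≤ k := by positivity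
    rw [div_le_iff₀ (by positivity)]
    nlinarith
  set B : ℝ := r k0 * Real.exp (D / k0) with hB
  have hB0 : 0 ≤ B := mul_nonneg (hr0 _) (Real.exp_pos _).le
  have hrB : ∀ k : ℕ, k0 ≤ k → r k * Real.exp (D / k) ≤ B := by
    intro k hk
    induction k, hk using Nat.le_induction with
    | base => exact le_rfl
    | succ k hk ih =>
      have hkpos : (0 : ℝ) < k := by
        have : 1 ≤ k := hk0.trans hk
        exact_mod_cast this
      refine le_trans ?_ ih
      have h1 := hstep k (hk0' k hk)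
      calc r (k + 1) * Real.exp (D / ((k + 1 : ℕ) : ℝ)) ≤
            (r k * Real.exp (D / ((k : ℝ) + 1) ^ 2)) * Real.exp (D / ((k + 1 : ℕ) : ℝ)) :=
            mul_le_mul_of_nonneg_right h1 (Real.exp_pos _).le
        _ = r k * Real.exp (D / ((k : ℝ) + 1) ^ 2 + D / ((k + 1 : ℕ) : ℝ)) := by
            rw [Real.exp_add]; ring
        _ ≤ r k * Real.exp (D / k) := by
            apply mul_le_mul_of_nonneg_left _ (hr0 _)
            apply Real.exp_le_exp.mpr
            push_cast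
            rw [div_add_div _ _ (by positivity) (by positivity),
              div_le_div_iff₀ (by positivity) hkpos]
            have e1 : (D * ((k : ℝ) + 1) + ((k : ℝ) + 1) ^ 2 * D) * k =
                D * (((k : ℝ) + 1) ^ 2 * ((k : ℝ) + 1)) - D * ((k : ℝ) + 1) := by ring
            have e2 : 0 ≤ D * ((k : ℝ) + 1) := by positivity
            linarith
  have hrB' : ∀ k : ℕ, k0 ≤ k → r k ≤ B := by
    intro k hk
    refine le_trans ?_ (hrB k hk)
    have h1 : 1 ≤ Real.exp (D / k) := Real.one_le_exp (by positivity)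
    nlinarith [hr0 k]
  -- the bound on `E_k^{-γ}`
  set γ : ℝ := α / 2 with hγ
  have hγ0 : 0 < γ := by positivity
  have hγβ : γ + 1 = β := by rw [hγ, hβ]; ring
  have hmono : ∀ k j : ℕ, k ≤ j → E j ≤ E k := by
    intro k j hkj
    exact antitone_nat_of_succ_le hanti hkj
  have hlin : ∀ k : ℕ, k0 ≤ k → E k ^ (-γ) ≤ E k0 ^ (-γ) + γ * B * k := by
    intro k hk
    induction k, hk using Nat.le_induction with
    | base =>
      have : 0 ≤ γ * B * k0 := by positivity
      linarith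
    | succ k hk ih =>
      have h1 := rpow_neg_sub_le hγ0.le (hE (k + 1)) (hanti k)
      rw [hγβ] at h1
      have h2 : E (k + 1) ^ (-β) * (E k - E (k + 1)) = r k := by
        simp only [hr]; ring
      rw [h2] at h1
      have h3 := mul_le_mul_of_nonneg_left (hrB' k hk) hγ0.le
      push_cast
      linarith
  have hall : ∀ k : ℕ, E k ^ (-γ) ≤ (E k0 ^ (-γ) + γ * B) * ((k : ℝ) + 1) := by
    intro k
    have hp : 0 < E k0 ^ (-γ) := Real.rpow_pos_of_pos (hE _) _
    have hk0r : (0 : ℝ) ≤ k := by positivity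
    have hgb : 0 ≤ γ * B := by positivity
    rcases le_total k0 k with hk | hk
    · have := hlin k hk
      nlinarith
    · have h1 : E k ^ (-γ) ≤ E k0 ^ (-γ) :=
        Real.rpow_le_rpow_of_nonpos (hE _) (hmono k k0 hk) (by linarith)
      nlinarith
  set C1 : ℝ := E k0 ^ (-γ) + γ * B with hC1
  have hC1pos : 0 < C1 := by
    have hp : 0 < E k0 ^ (-γ) := Real.rpow_pos_of_pos (hE _) _
    have hgb : 0 ≤ γ * B := by positivity
    linarith
  refine ⟨C1 ^ (-(2 / α)), Real.rpow_pos_of_pos hC1pos _, ?_⟩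
  intro k
  have hk1 : (0 : ℝ) < (k : ℝ) + 1 := by positivity
  rw [← Real.mul_rpow hC1pos.le hk1.le]
  have h1 : (C1 * ((k : ℝ) + 1)) ^ (-(2 / α)) ≤ (E k ^ (-γ)) ^ (-(2 / α)) :=
    Real.rpow_le_rpow_of_nonpos (Real.rpow_pos_of_pos (hE k) _) (hall k) (by
      have : 0 < 2 / α := by positivity
      linarith)
  rw [← Real.rpow_mul (hE k).le] at h1
  have h2 : -γ * -(2 / α) = 1 := by rw [hγ]; field_simp
  rwa [h2, Real.rpow_one] at h1

end Pool.Agent.Helper39_Wave
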