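import Pool.Agent.Helper39_Wave.Phi

/-!
The damped wave equation in one space dimension, written along characteristics:
`∂ₜ P(t,y) = -κ φ(P(t,y) - P(t,2t-y))`, `P` being `2ℓ`-periodic in `y` with mean zero.
Maximum principle and decay of the supremum.
-/

set_option autoImplicit false

open Real Filter Topology Set MeasureTheory

namespace Pool.Agent.Helper39_Wave

/-- The characteristic form of the damped wave equation. -/
structure CharSol (κ α ℓ : ℝ) (P : ℝ → ℝ → ℝ) : Prop where
  kpos : 0 < κ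
  apos : 0 < α
  lpos : 0 < ℓ
  cont : Continuous (fun z : ℝ × ℝ => P z.1 z.2)
  per : ∀ t y, P t (y + 2 * ℓ) = P t y
  ode : ∀ t1 t2 y, 0 ≤ t1 → t1 ≤ t2 →
    P t2 y - P t1 y = -κ * ∫ s in t1..t2, phi α (P s y - P s (2 * s - y))
  mean : ∀ t, 0 ≤ t → ∫ y in (0 : ℝ)..(2 * ℓ), P t y = 0

variable {κ α ℓ : ℝ} {P : ℝ → ℝ → ℝ}

namespace CharSol

theorem contf (h : CharSol κ α ℓ P) :
    Continuous (fun z : ℝ × ℝ => phi α (P z.1 z.2 - P z.1 (2 * z.1 - z.2))) := by
  apply (continuous_phi h.apos).comp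
  apply Continuous.sub h.cont
  exact h.cont.comp (by fun_prop : Continuous fun z : ℝ × ℝ => (z.1, 2 * z.1 - z.2))

theorem contP (h : CharSol κ α ℓ P) {X : Type*} [TopologicalSpace X] {a b : X → ℝ}
    (ha : Continuous a) (hb : Continuous b) : Continuous (fun x => P (a x) (b x)) :=
  h.cont.comp (ha.prodMk hb)

theorem contF (h : CharSol κ α ℓ P) {X : Type*} [TopologicalSpace X] {a b : X → ℝ}
    (ha : Continuous a) (hb : Continuous b) :
    Continuous (fun x => phi α (P (a x) (b x) - P (a x) (2 * a x - b x))) :=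
  h.contf.comp (ha.prodMk hb)

theorem periodic (h : CharSol κ α ℓ P) (t : ℝ) : Function.Periodic (P t) (2 * ℓ) := h.per t

theorem neg (h : CharSol κ α ℓ P) : CharSol κ α ℓ (fun t y => -P t y) where
  kpos := h.kpos
  apos := h.apos
  lpos := h.lpos
  cont := h.cont.neg
  per := fun t y => by rw [h.per]
  ode := by
    intro t1 t2 y h1 h2
    have h3 := h.ode t1 t2 y h1 h2
    have h4 : ∀ s, phi α (-P s y - -P s (2 * s - y)) = -phi α (P s y - P s (2 * s - y)) := by
      intro s
      rw [← phi_neg]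
      congr 1; ring
    simp_rw [h4]
    rw [intervalIntegral.integral_neg]
    linarith
  mean := by
    intro t ht
    rw [intervalIntegral.integral_neg, h.mean t ht, neg_zero]

/-- Maximum principle. -/
theorem le_of_le (h : CharSol κ α ℓ P) {t0 M : ℝ} (ht0 : 0 ≤ t0) (hM : ∀ y, P t0 y ≤ M) :
    ∀ t, t0 ≤ t → ∀ y, P t y ≤ M := by
  intro t1 ht1 y1
  by_contra hcon
  push Not at hcon
  have hlt : t0 < t1 := by
    rcases ht1.eq_or_lt with h1 | h1
    · subst h1; exact absurd (hM y1) (not_le.mpr hcon)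
    · exact h1
  set ε : ℝ := (P t1 y1 - M) / (2 * (t1 - t0)) with hε
  have hεpos : 0 < ε := div_pos (by linarith) (by linarith)
  have hε1 : ε * (t1 - t0) < P t1 y1 - M := by
    have h1 : ε * (t1 - t0) = (P t1 y1 - M) / 2 := by
      rw [hε]; field_simp [(by linarith : t1 - t0 ≠ 0)]
    rw [h1]; linarith
  have hl2 : 0 < 2 * ℓ := by linarith [h.lpos]
  obtain ⟨y1', hy1', hy1e⟩ := (h.periodic t1).exists_mem_Ico₀ hl2 y1
  set K : Set (ℝ × ℝ) := Icc t0 t1 ×ˢ Icc 0 (2 * ℓ) with hK
  have hKc : IsCompact K := isCompact_Icc.prod isCompact_Icc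
  have hmem1 : ((t1, y1') : ℝ × ℝ) ∈ K := ⟨⟨hlt.le, le_rfl⟩, ⟨hy1'.1, hy1'.2.le⟩⟩
  have hcontQ : ContinuousOn (fun z : ℝ × ℝ => P z.1 z.2 - ε * (z.1 - t0)) K :=
    (h.cont.sub (by fun_prop)).continuousOn
  obtain ⟨⟨ts, ys⟩, hz, hmax⟩ := hKc.exists_isMaxOn ⟨_, hmem1⟩ hcontQ
  have hmax' : ∀ t y, t0 ≤ t → t ≤ t1 → P t y - ε * (t - t0) ≤ P ts ys - ε * (ts - t0) := by
    intro t y h1 h2
    obtain ⟨y', hy', hye⟩ := (h.periodic t).exists_mem_Ico₀ hl2 y
    have := hmax (show ((t, y') : ℝ × ℝ) ∈ K from ⟨⟨h1, h2⟩, ⟨hy'.1, hy'.2.le⟩⟩)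
    rw [hye]
    exact this
  have hts : t0 ≤ ts ∧ ts ≤ t1 := hz.1
  have hgt : M < P ts ys - ε * (ts - t0) := by
    have := hmax' t1 y1 hlt.le le_rfl
    linarith
  have hts0 : t0 < ts := by
    rcases hts.1.eq_or_lt with h1 | h1
    · rw [← h1] at hgt
      have := hM ys
      linarith
    · exact h1
  have hD : 0 ≤ P ts ys - P ts (2 * ts - ys) := by
    have := hmax' ts (2 * ts - ys) hts.1 hts.2
    linarith
  have hf0 : 0 ≤ phi α (P ts ys - P ts (2 * ts - ys)) := phi_nonneg hD
  have hcf : Continuous (fun s : ℝ => phi α (P s ys - P s (2 * s - ys))) :=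
    h.contF continuous_id continuous_const
  have hev : ∀ᶠ s in 𝓝 ts, -(ε / (2 * κ)) < phi α (P s ys - P s (2 * s - ys)) := by
    apply hcf.continuousAt.eventually (lt_mem_nhds _)
    have : 0 < ε / (2 * κ) := div_pos hεpos (by linarith [h.kpos])
    simp only
    linarith
  obtain ⟨δ, hδ, hball⟩ := Metric.eventually_nhds_iff.mp hev
  set s0 : ℝ := max t0 (ts - δ / 2) with hs0
  have hs0lt : s0 < ts := max_lt hts0 (by linarith)
  have hs0ge : t0 ≤ s0 := le_max_left _ _
  have hode := h.ode s0 ts ys (ht0.trans hs0ge) hs0lt.le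
  have hint : -(ε / (2 * κ)) * (ts - s0) ≤ ∫ s in s0..ts, phi α (P s ys - P s (2 * s - ys)) := by
    have h1 : ∫ _s in s0..ts, (-(ε / (2 * κ))) = (ts - s0) * (-(ε / (2 * κ))) := by
      rw [intervalIntegral.integral_const, smul_eq_mul]
    have h2 : ∫ _s in s0..ts, (-(ε / (2 * κ))) ≤
        ∫ s in s0..ts, phi α (P s ys - P s (2 * s - ys)) := by
      apply intervalIntegral.integral_mono_on hs0lt.le (by simp) (hcf.intervalIntegrable _ _)
      intro s hs
      apply le_of_lt
      apply hball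
      rw [Real.dist_eq, abs_lt]
      have := le_max_right t0 (ts - δ / 2)
      constructor <;> linarith [hs.1, hs.2]
    rw [h1] at h2
    linarith
  have hκ := h.kpos
  have h5 : P ts ys - P s0 ys ≤ ε / 2 * (ts - s0) := by
    rw [hode]
    have h6 : κ * (-(ε / (2 * κ)) * (ts - s0)) ≤
        κ * ∫ s in s0..ts, phi α (P s ys - P s (2 * s - ys)) :=
      mul_le_mul_of_nonneg_left hint hκ.le
    have h7 : κ * (-(ε / (2 * κ)) * (ts - s0)) = -(ε / 2 * (ts - s0)) := by
      field_simp
    rw [h7] at h6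
    linarith
  have h8 := hmax' s0 ys hs0ge (hs0lt.le.trans hts.2)
  have h9 : ε / 2 * (ts - s0) < ε * (ts - s0) := by
    have : 0 < ε * (ts - s0) := mul_pos hεpos (by linarith)
    linarith
  linarith

theorem abs_le_of_le (h : CharSol κ α ℓ P) {t0 M : ℝ} (ht0 : 0 ≤ t0) (hM : ∀ y, |P t0 y| ≤ M) :
    ∀ t, t0 ≤ t → ∀ y, |P t y| ≤ M := by
  intro t ht y
  have h1 := h.le_of_le ht0 (fun y => (abs_le.mp (hM y)).2) t ht y
  have h2 := h.neg.le_of_le ht0 (M := M) (fun y => by
    have := (abs_le.mp (hM y)).1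
    linarith) t ht y
  rw [abs_le]
  constructor <;> linarith

theorem hasDerivAt (h : CharSol κ α ℓ P) {t : ℝ} (ht : 0 < t) (y : ℝ) :
    HasDerivAt (fun s => P s y) (-κ * phi α (P t y - P t (2 * t - y))) t := by
  have hcf : Continuous (fun s : ℝ => phi α (P s y - P s (2 * s - y))) :=
    h.contF continuous_id continuous_const
  have h1 : HasDerivAt (fun s => P 0 y + -κ * ∫ r in (0 : ℝ)..s, phi α (P r y - P r (2 * r - y)))
      (-κ * phi α (P t y - P t (2 * t - y))) t := by
    have h2 := (intervalIntegral.integral_hasDerivAt_right (hcf.intervalIntegrable 0 t)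
      (hcf.stronglyMeasurableAtFilter _ _) hcf.continuousAt).const_mul (-κ)
    exact h2.const_add (P 0 y)
  refine h1.congr_of_eventuallyEq ?_
  filter_upwards [lt_mem_nhds ht] with s hs
  have := h.ode 0 s y le_rfl hs.le
  linarith

/-- Growth of the distance to the supremum. -/
theorem growth (h : CharSol κ α ℓ P) {t0 M : ℝ} (ht0 : 0 ≤ t0) (hM : ∀ y, |P t0 y| ≤ M)
    (z : ℝ) {t : ℝ} (ht : t0 ≤ t) :
    (M - P t0 z) + κ * ∫ s in t0..t, phi α (M - P s (2 * s - z)) ≤
      Real.exp (κ * ((α + 1) * (2 * M) ^ α) * (t - t0)) * (M - P t z) := by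
  set lam : ℝ := κ * ((α + 1) * (2 * M) ^ α) with hlam
  have hb := h.abs_le_of_le ht0 hM
  have hM0 : 0 ≤ M := (abs_nonneg _).trans (hM 0)
  have hlam0 : 0 ≤ lam := by
    have := Real.rpow_nonneg (by linarith : (0 : ℝ) ≤ 2 * M) α
    have h1 := h.kpos
    have h2 := h.apos
    positivity
  have hcw : Continuous (fun s : ℝ => phi α (M - P s (2 * s - z))) := by
    apply (continuous_phi h.apos).comp
    apply continuous_const.sub
    exact h.contP continuous_id (by fun_prop)
  set G : ℝ → ℝ := fun t => Real.exp (lam * (t - t0)) * (M - P t z) -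
    κ * ∫ s in t0..t, phi α (M - P s (2 * s - z)) with hG
  have hGd : ∀ t, t0 < t → HasDerivAt G ((Real.exp (lam * (t - t0)) * lam) * (M - P t z) +
      Real.exp (lam * (t - t0)) * (κ * phi α (P t z - P t (2 * t - z))) -
      κ * phi α (M - P t (2 * t - z))) t := by
    intro t ht
    have h1 : HasDerivAt (fun t => Real.exp (lam * (t - t0))) (Real.exp (lam * (t - t0)) * lam) t := by
      have h2 : HasDerivAt (fun t => lam * (t - t0)) lam t := by
        simpa using ((hasDerivAt_id t).sub_const t0).const_mul lam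
      exact h2.exp
    have h3 : HasDerivAt (fun t => M - P t z) (κ * phi α (P t z - P t (2 * t - z))) t := by
      have := (h.hasDerivAt (lt_of_le_of_lt ht0 ht) z).const_sub M
      simpa using this
    have h4 := (intervalIntegral.integral_hasDerivAt_right (hcw.intervalIntegrable t0 t)
      (hcw.stronglyMeasurableAtFilter _ _) hcw.continuousAt).const_mul κ
    exact (h1.mul h3).sub h4
  have hGc : Continuous G := by
    apply Continuous.sub
    · apply Continuous.mul (by fun_prop)
      exact continuous_const.sub (h.contP continuous_id continuous_const)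
    · apply continuous_const.mul
      exact intervalIntegral.continuous_primitive (fun a b => hcw.intervalIntegrable a b) t0
  have hmono : MonotoneOn G (Set.Ici t0) := by
    apply monotoneOn_of_deriv_nonneg (convex_Ici t0) hGc.continuousOn
    · intro x hx
      rw [interior_Ici] at hx
      exact (hGd x hx).differentiableAt.differentiableWithinAt
    · intro x hx
      rw [interior_Ici] at hx
      rw [(hGd x hx).deriv]
      set v := M - P x z with hv
      set w := M - P x (2 * x - z) with hw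
      have hx0 : t0 ≤ x := le_of_lt hx
      have b1 := abs_le.mp (hb x hx0 z)
      have b2 := abs_le.mp (hb x hx0 (2 * x - z))
      have hDvw : P x z - P x (2 * x - z) = w - v := by rw [hw, hv]; ring
      rw [hDvw]
      have hv0 : 0 ≤ v := by rw [hv]; linarith [b1.2]
      have hw0 : 0 ≤ w := by rw [hw]; linarith [b2.2]
      have h1 := phi_sub_le h.apos (a := w) (b := w - v) (M := 2 * M)
        (by rw [abs_le]; constructor <;> rw [hw] <;> linarith [b2.1, b2.2])
        (by rw [abs_le]; constructor <;> rw [hw, hv] <;> linarith [b1.1, b1.2, b2.1, b2.2])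
      have h2 : |w - v - w| = v := by
        rw [show w - v - w = -v by ring, abs_neg, abs_of_nonneg hv0]
      rw [h2] at h1
      have h3 := (abs_le.mp h1).1
      have hphiw : 0 ≤ phi α w := phi_nonneg hw0
      have hκ := h.kpos
      have h4 : κ * phi α w ≤ lam * v + κ * phi α (w - v) := by
        have : κ * (-((α + 1) * (2 * M) ^ α * v)) ≤ κ * (phi α (w - v) - phi α w) :=
          mul_le_mul_of_nonneg_left h3 hκ.le
        rw [hlam]; nlinarith
      have h5 : 1 ≤ Real.exp (lam * (x - t0)) := by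
        apply Real.one_le_exp
        exact mul_nonneg hlam0 (by linarith)
      have h6 : 0 ≤ κ * phi α w := mul_nonneg hκ.le hphiw
      have h7 : κ * phi α w ≤ Real.exp (lam * (x - t0)) * (lam * v + κ * phi α (w - v)) := by
        calc κ * phi α w = 1 * (κ * phi α w) := by ring
          _ ≤ Real.exp (lam * (x - t0)) * (κ * phi α w) := mul_le_mul_of_nonneg_right h5 h6
          _ ≤ _ := mul_le_mul_of_nonneg_left h4 (Real.exp_pos _).le
      linarith
  have h1 := hmono (Set.mem_Ici.mpr le_rfl) (Set.mem_Ici.mpr ht) ht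
  have h2 : G t0 = M - P t0 z := by
    simp only [hG]
    simp
  rw [h2] at h1
  simp only [hG] at h1
  linarith

theorem integral_period (h : CharSol κ α ℓ P) {t : ℝ} (ht : 0 ≤ t) (a : ℝ) :
    ∫ y in a..(a + 2 * ℓ), P t y = 0 := by
  rw [(h.periodic t).intervalIntegral_add_eq a 0, zero_add]
  exact h.mean t ht

/-- One step of the decay of the supremum. -/
theorem step_le (h : CharSol κ α ℓ P) {t0 M : ℝ} (ht0 : 0 ≤ t0) (hM : ∀ y, |P t0 y| ≤ M) (y : ℝ) :
    P (t0 + ℓ) y ≤ M - κ * ℓ * Real.exp (-(κ * ((α + 1) * (2 * M) ^ α) * ℓ * (α + 2))) *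
      M ^ (α + 1) := by
  set lam : ℝ := κ * ((α + 1) * (2 * M) ^ α) with hlam
  have hb := h.abs_le_of_le ht0 hM
  have hM0 : 0 ≤ M := (abs_nonneg _).trans (hM 0)
  have hκ := h.kpos
  have hα := h.apos
  have hℓ := h.lpos
  have hlam0 : 0 ≤ lam := by
    have := Real.rpow_nonneg (by linarith : (0 : ℝ) ≤ 2 * M) α
    positivity
  set q : ℝ := Real.exp (-(lam * ℓ)) with hq
  have hq0 : 0 < q := Real.exp_pos _
  have hcw : Continuous (fun s : ℝ => phi α (M - P s (2 * s - y))) := by
    apply (continuous_phi h.apos).comp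
    apply continuous_const.sub
    exact h.contP continuous_id (by fun_prop)
  -- lower bound of the integrand
  have hlow : ∀ s ∈ Set.Icc t0 (t0 + ℓ),
      phi α (q * M) + (α + 1) * (q * M) ^ α * (-(q * P t0 (2 * s - y))) ≤
        phi α (M - P s (2 * s - y)) := by
    intro s hs
    have h1 := h.growth ht0 hM (2 * s - y) hs.1
    have h2 : 0 ≤ ∫ r in t0..s, phi α (M - P r (2 * r - (2 * s - y))) := by
      apply intervalIntegral.integral_nonneg hs.1
      intro r hr
      apply phi_nonneg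
      linarith [(abs_le.mp (hb r hr.1 (2 * r - (2 * s - y)))).2]
    have h3 : M - P t0 (2 * s - y) ≤ Real.exp (lam * (s - t0)) * (M - P s (2 * s - y)) := by
      have := mul_nonneg hκ.le h2
      linarith
    have h4 : 0 ≤ M - P s (2 * s - y) := by linarith [(abs_le.mp (hb s hs.1 (2 * s - y))).2]
    have h5 : Real.exp (lam * (s - t0)) ≤ Real.exp (lam * ℓ) := by
      apply Real.exp_le_exp.mpr
      exact mul_le_mul_of_nonneg_left (by linarith [hs.2]) hlam0
    have h6 : M - P t0 (2 * s - y) ≤ Real.exp (lam * ℓ) * (M - P s (2 * s - y)) :=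
      h3.trans (mul_le_mul_of_nonneg_right h5 h4)
    have h7 : q * (M - P t0 (2 * s - y)) ≤ M - P s (2 * s - y) := by
      have h8 : q * Real.exp (lam * ℓ) = 1 := by
        rw [hq, ← Real.exp_add]; simp
      calc q * (M - P t0 (2 * s - y)) ≤ q * (Real.exp (lam * ℓ) * (M - P s (2 * s - y))) :=
            mul_le_mul_of_nonneg_left h6 hq0.le
        _ = (q * Real.exp (lam * ℓ)) * (M - P s (2 * s - y)) := by ring
        _ = _ := by rw [h8, one_mul]
    have h9 : 0 ≤ q * (M - P t0 (2 * s - y)) := by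
      apply mul_nonneg hq0.le
      linarith [(abs_le.mp (hM (2 * s - y))).2]
    have h10 := phi_ge_tangent hα h9 (mul_nonneg hq0.le hM0)
    have h11 : q * (M - P t0 (2 * s - y)) - q * M = -(q * P t0 (2 * s - y)) := by ring
    rw [h11] at h10
    exact h10.trans (monotone_phi hα h7)
  have hint0 : ∫ s in t0..(t0 + ℓ), P t0 (2 * s - y) = 0 := by
    have h1 := intervalIntegral.integral_comp_mul_sub (f := P t0) (a := t0) (b := t0 + ℓ)
      (c := 2) (two_ne_zero) y
    rw [h1]
    have h2 : 2 * (t0 + ℓ) - y = (2 * t0 - y) + 2 * ℓ := by ring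
    rw [h2, h.integral_period ht0]
    simp
  have hint : ℓ * phi α (q * M) ≤ ∫ s in t0..(t0 + ℓ), phi α (M - P s (2 * s - y)) := by
    have hcl : Continuous (fun s : ℝ => phi α (q * M) +
        (α + 1) * (q * M) ^ α * (-(q * P t0 (2 * s - y)))) := by
      apply continuous_const.add
      apply continuous_const.mul
      apply Continuous.neg
      apply continuous_const.mul
      exact h.contP continuous_const (by fun_prop)
    have h1 := intervalIntegral.integral_mono_on (μ := volume) (by linarith : t0 ≤ t0 + ℓ)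
      (hcl.intervalIntegrable _ _) (hcw.intervalIntegrable _ _) hlow
    have h2 : ∫ s in t0..(t0 + ℓ), (phi α (q * M) +
        (α + 1) * (q * M) ^ α * (-(q * P t0 (2 * s - y)))) = ℓ * phi α (q * M) := by
      have hcP : Continuous (fun s : ℝ => P t0 (2 * s - y)) :=
        h.contP continuous_const (by fun_prop)
      have hi1 : IntervalIntegrable (fun _ : ℝ => phi α (q * M)) volume t0 (t0 + ℓ) :=
        continuous_const.intervalIntegrable _ _
      have hi2 : IntervalIntegrable (fun s : ℝ => (α + 1) * (q * M) ^ α * (-(q * P t0 (2 * s - y))))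
          volume t0 (t0 + ℓ) :=
        (continuous_const.mul (continuous_const.mul hcP).neg).intervalIntegrable _ _
      rw [intervalIntegral.integral_add hi1 hi2]
      rw [intervalIntegral.integral_const, intervalIntegral.integral_const_mul,
        intervalIntegral.integral_neg, intervalIntegral.integral_const_mul, hint0]
      simp
    rw [h2] at h1
    exact h1
  have hg := h.growth ht0 hM y (by linarith : t0 ≤ t0 + ℓ)
  have h12 : t0 + ℓ - t0 = ℓ := by ring
  rw [h12] at hg
  have h13 : 0 ≤ M - P t0 y := by linarith [(abs_le.mp (hM y)).2]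
  have h14 : κ * (ℓ * phi α (q * M)) ≤ Real.exp (lam * ℓ) * (M - P (t0 + ℓ) y) := by
    have := mul_le_mul_of_nonneg_left hint hκ.le
    linarith
  have h15 : q * (κ * (ℓ * phi α (q * M))) ≤ M - P (t0 + ℓ) y := by
    have h8 : q * Real.exp (lam * ℓ) = 1 := by
      rw [hq, ← Real.exp_add]; simp
    calc q * (κ * (ℓ * phi α (q * M))) ≤ q * (Real.exp (lam * ℓ) * (M - P (t0 + ℓ) y)) :=
          mul_le_mul_of_nonneg_left h14 hq0.le
      _ = (q * Real.exp (lam * ℓ)) * (M - P (t0 + ℓ) y) := by ring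
      _ = _ := by rw [h8, one_mul]
  have h16 : q * (κ * (ℓ * phi α (q * M))) =
      κ * ℓ * Real.exp (-(lam * ℓ * (α + 2))) * M ^ (α + 1) := by
    rw [phi_of_nonneg hα (mul_nonneg hq0.le hM0), Real.mul_rpow hq0.le hM0]
    have h17 : Real.exp (-(lam * ℓ * (α + 2))) = q * q ^ (α + 1) := by
      rw [hq, ← Real.exp_mul, ← Real.exp_add]
      congr 1; ring
    rw [h17]; ring
  rw [h16] at h15
  linarith

/-- One step of the decay, with a uniform constant. -/
theorem step_abs_le (h : CharSol κ α ℓ P) {t0 M M0 : ℝ} (ht0 : 0 ≤ t0) (hM : ∀ y, |P t0 y| ≤ M)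
    (hMM : M ≤ M0) (y : ℝ) :
    |P (t0 + ℓ) y| ≤ M - κ * ℓ * Real.exp (-(κ * ((α + 1) * (2 * M0) ^ α) * ℓ * (α + 2))) *
      M ^ (α + 1) := by
  have hM0 : 0 ≤ M := (abs_nonneg _).trans (hM 0)
  have hκ := h.kpos
  have hα := h.apos
  have hℓ := h.lpos
  have hexp : Real.exp (-(κ * ((α + 1) * (2 * M0) ^ α) * ℓ * (α + 2))) ≤
      Real.exp (-(κ * ((α + 1) * (2 * M) ^ α) * ℓ * (α + 2))) := by
    apply Real.exp_le_exp.mpr
    apply neg_le_neg
    have h1 : (2 * M) ^ α ≤ (2 * M0) ^ α :=
      Real.rpow_le_rpow (by linarith) (by linarith) hα.le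
    have h2 : (α + 1) * (2 * M) ^ α ≤ (α + 1) * (2 * M0) ^ α :=
      mul_le_mul_of_nonneg_left h1 (by linarith)
    have h3 := mul_le_mul_of_nonneg_left h2 hκ.le
    have h4 := mul_le_mul_of_nonneg_right h3 hℓ.le
    exact mul_le_mul_of_nonneg_right h4 (by linarith)
  have hfin : κ * ℓ * Real.exp (-(κ * ((α + 1) * (2 * M0) ^ α) * ℓ * (α + 2))) * M ^ (α + 1) ≤
      κ * ℓ * Real.exp (-(κ * ((α + 1) * (2 * M) ^ α) * ℓ * (α + 2))) * M ^ (α + 1) := by
    apply mul_le_mul_of_nonneg_right _ (Real.rpow_nonneg hM0 _)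
    exact mul_le_mul_of_nonneg_left hexp (by positivity)
  have h1 := h.step_le ht0 hM y
  have h2 := h.neg.step_le ht0 (M := M) (fun y => by rw [abs_neg]; exact hM y) y
  rw [abs_le]
  constructor <;> linarith

end CharSol

/-- Auxiliary: one step of the scalar recursion. -/
theorem scalar_step {α c A x : ℝ} (hα : 0 < α) (hc : 0 < c) (hA : 0 < A) (hx : 0 ≤ x)
    (hxA : x ≤ A ^ (-(1 / α))) : x - c * x ^ (α + 1) ≤ (A + α * c) ^ (-(1 / α)) := by
  have hA' : 0 < A + α * c := by positivity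
  have hBpos : 0 < (A + α * c) ^ (-(1 / α)) := Real.rpow_pos_of_pos hA' _
  rcases hx.eq_or_lt with h0 | hxpos
  · rw [← h0, Real.zero_rpow (by linarith : α + 1 ≠ 0)]
    linarith
  set s : ℝ := c * x ^ α with hs
  have hxs : x - c * x ^ (α + 1) = x * (1 - s) := by
    rw [hs, Real.rpow_add_one hxpos.ne']; ring
  rw [hxs]
  rcases le_or_gt 1 s with h1 | h1
  · have : x * (1 - s) ≤ 0 := mul_nonpos_of_nonneg_of_nonpos hx (by linarith)
    linarith
  · have h1s : 0 < 1 - s := by linarith
    have hs0 : 0 ≤ s := by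
      rw [hs]; exact mul_nonneg hc.le (Real.rpow_nonneg hx α)
    have hprod : 0 < x * (1 - s) := mul_pos hxpos h1s
    -- it suffices to compare the powers `-α`
    have key : A + α * c ≤ (x * (1 - s)) ^ (-α) := by
      rw [Real.mul_rpow hx h1s.le]
      have e1 : A ≤ x ^ (-α) := by
        have h2 : (A ^ (-(1 / α))) ^ (-α) ≤ x ^ (-α) :=
          Real.rpow_le_rpow_of_nonpos hxpos hxA (by linarith)
        rw [← Real.rpow_mul hA.le] at h2
        have h3 : -(1 / α) * -α = 1 := by field_simp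
        rw [h3, Real.rpow_one] at h2
        exact h2
      have e2 : 1 + α * s ≤ (1 - s) ^ (-α) := by
        rw [Real.rpow_def_of_pos h1s]
        have h4 : Real.log (1 - s) ≤ -s := by
          have := Real.log_le_sub_one_of_pos h1s
          linarith
        have h5 : α * s ≤ Real.log (1 - s) * -α := by nlinarith
        have h6 := Real.add_one_le_exp (Real.log (1 - s) * -α)
        linarith
      have e3 : x ^ (-α) * (1 + α * s) = x ^ (-α) + α * c := by
        rw [hs, Real.rpow_neg hx]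
        have : x ^ α ≠ 0 := (Real.rpow_pos_of_pos hxpos α).ne'
        field_simp
      have hxa : 0 < x ^ (-α) := Real.rpow_pos_of_pos hxpos _
      calc A + α * c ≤ x ^ (-α) + α * c := by linarith
        _ = x ^ (-α) * (1 + α * s) := e3.symm
        _ ≤ x ^ (-α) * (1 - s) ^ (-α) := mul_le_mul_of_nonneg_left e2 hxa.le
    have h7 : ((x * (1 - s)) ^ (-α)) ^ (-(1 / α)) ≤ (A + α * c) ^ (-(1 / α)) :=
      Real.rpow_le_rpow_of_nonpos hA' key (by
        have : 0 < 1 / α := by positivity
        linarith)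
    rw [← Real.rpow_mul hprod.le] at h7
    have h8 : -α * -(1 / α) = 1 := by field_simp
    rwa [h8, Real.rpow_one] at h7

namespace CharSol

/-- Decay of the supremum. -/
theorem sup_decay (h : CharSol κ α ℓ P) : ∃ A c : ℝ, 0 < A ∧ 0 < c ∧
    ∀ (k : ℕ) (t y : ℝ), k * ℓ ≤ t → |P t y| ≤ (A + α * c * k) ^ (-(1 / α)) := by
  have hα := h.apos
  have hκ := h.kpos
  have hℓ := h.lpos
  have hl2 : 0 < 2 * ℓ := by linarith
  -- a bound at time zero
  have hc0 : Continuous (fun y => |P 0 y|) := (h.contP continuous_const continuous_id).abs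
  obtain ⟨ym, -, hym⟩ := isCompact_Icc.exists_isMaxOn (s := Set.Icc (0 : ℝ) (2 * ℓ))
    ⟨0, ⟨le_rfl, hl2.le⟩⟩ hc0.continuousOn
  set M0 : ℝ := |P 0 ym| + 1 with hM0
  have hM0pos : 0 < M0 := by positivity
  have hM0b : ∀ y, |P 0 y| ≤ M0 := by
    intro y
    obtain ⟨y', hy', hye⟩ := (h.periodic 0).exists_mem_Ico₀ hl2 y
    rw [hye]
    have : |P 0 y'| ≤ |P 0 ym| := hym (⟨hy'.1, hy'.2.le⟩ : y' ∈ Set.Icc (0 : ℝ) (2 * ℓ))
    linarith
  set c : ℝ := κ * ℓ * Real.exp (-(κ * ((α + 1) * (2 * M0) ^ α) * ℓ * (α + 2))) with hc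
  have hcpos : 0 < c := by positivity
  set A : ℝ := M0 ^ (-α) with hA
  have hApos : 0 < A := Real.rpow_pos_of_pos hM0pos _
  have hA0 : A ^ (-(1 / α)) = M0 := by
    rw [hA, ← Real.rpow_mul hM0pos.le]
    have : -α * -(1 / α) = 1 := by field_simp
    rw [this, Real.rpow_one]
  refine ⟨A, c, hApos, hcpos, ?_⟩
  -- the recursion
  have hrec : ∀ k : ℕ, ∃ m : ℝ, m ≤ M0 ∧ m ≤ (A + α * c * k) ^ (-(1 / α)) ∧
      ∀ y, |P (k * ℓ) y| ≤ m := by
    intro k
    induction k with
    | zero =>
      refine ⟨M0, le_rfl, ?_, ?_⟩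
      · rw [Nat.cast_zero, mul_zero, add_zero, hA0]
      · simpa using hM0b
    | succ k ih =>
      obtain ⟨m, hm1, hm2, hm3⟩ := ih
      have hm0 : 0 ≤ m := (abs_nonneg _).trans (hm3 0)
      refine ⟨m - c * m ^ (α + 1), ?_, ?_, ?_⟩
      · have : 0 ≤ c * m ^ (α + 1) := mul_nonneg hcpos.le (Real.rpow_nonneg hm0 _)
        linarith
      · have h1 := scalar_step hα hcpos (A := A + α * c * k) (by positivity) hm0 hm2
        have h2 : A + α * c * k + α * c = A + α * c * ((k + 1 : ℕ) : ℝ) := by push_cast; ring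
        rwa [h2] at h1
      · intro y
        have h1 := h.step_abs_le (t0 := k * ℓ) (by positivity) hm3 hm1 y
        have h2 : (k : ℝ) * ℓ + ℓ = ((k + 1 : ℕ) : ℝ) * ℓ := by push_cast; ring
        rwa [h2] at h1
  intro k t y ht
  obtain ⟨m, -, hm2, hm3⟩ := hrec k
  exact (h.abs_le_of_le (by positivity) hm3 t ht y).trans hm2

end CharSol

end Pool.Agent.Helper39_Wave
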