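import Pool.Agent.Helper39_Wave.Key
import Pool.Agent.Helper39_Wave.Seq

/-!
Two-sided decay rate of the energy for the characteristic form.
-/

set_option autoImplicit false

open Real Filter Topology Set MeasureTheory

namespace Pool.Agent.Helper39_Wave

variable {κ α ℓ : ℝ} {P : ℝ → ℝ → ℝ}

namespace CharSol

theorem psi_le (h : CharSol κ α ℓ P) {s M : ℝ} (hM : ∀ y, |P s y| ≤ M) :
    psi α ℓ P s ≤ 4 * (2 * M) ^ α * En ℓ P s := by
  have hα := h.apos
  have hℓ := h.lpos
  have hM0 : 0 ≤ M := (abs_nonneg _).trans (hM 0)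
  have hMa : 0 ≤ (2 * M) ^ α := Real.rpow_nonneg (by linarith) α
  have cP : Continuous (fun y => P s y) := h.contP continuous_const continuous_id
  have cPs : Continuous (fun y => P s y ^ 2) := cP.pow 2
  have cPr : Continuous (fun y => P s (2 * s - y) ^ 2) :=
    (h.contP continuous_const (by fun_prop)).pow 2
  have hpt : ∀ y ∈ Icc (0 : ℝ) (2 * ℓ), |P s y - P s (2 * s - y)| ^ (α + 2) ≤
      (2 * (2 * M) ^ α) * (P s y ^ 2 + P s (2 * s - y) ^ 2) := by
    intro y _
    set D : ℝ := P s y - P s (2 * s - y) with hD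
    have b1 := abs_le.mp (hM y)
    have b2 := abs_le.mp (hM (2 * s - y))
    have h1 : |D| ≤ 2 * M := by rw [abs_le]; constructor <;> linarith
    have h2 : |D| ^ (α + 2) = |D| ^ α * D ^ 2 := by
      rw [← mul_phi hα]; unfold phi; ring
    rw [h2]
    have h3 : |D| ^ α ≤ (2 * M) ^ α := Real.rpow_le_rpow (abs_nonneg _) h1 hα.le
    have h4 : |D| ^ α * D ^ 2 ≤ (2 * M) ^ α * D ^ 2 :=
      mul_le_mul_of_nonneg_right h3 (sq_nonneg _)
    have h5 : D ^ 2 ≤ 2 * (P s y ^ 2 + P s (2 * s - y) ^ 2) := by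
      have := sq_nonneg (P s y + P s (2 * s - y))
      rw [hD]; nlinarith
    have h6 := mul_le_mul_of_nonneg_left h5 hMa
    linarith
  have e1 : psi α ℓ P s ≤ ∫ y in (0 : ℝ)..(2 * ℓ), (2 * (2 * M) ^ α) *
      (P s y ^ 2 + P s (2 * s - y) ^ 2) :=
    intervalIntegral.integral_mono_on (by linarith)
      ((h.cD continuous_const continuous_id).intervalIntegrable _ _)
      ((continuous_const.mul (cPs.add cPr)).intervalIntegrable _ _) hpt
  rw [intervalIntegral.integral_const_mul, intervalIntegral.integral_add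
    (cPs.intervalIntegrable _ _) (cPr.intervalIntegrable _ _)] at e1
  have e2 : ∫ y in (0 : ℝ)..(2 * ℓ), P s (2 * s - y) ^ 2 =
      ∫ y in (0 : ℝ)..(2 * ℓ), P s y ^ 2 := by
    apply integral_reflect (g := fun y => P s y ^ 2)
    intro y
    simp only
    rw [h.per]
  rw [e2] at e1
  unfold En
  linarith

theorem drop_le (h : CharSol κ α ℓ P) {T M δ : ℝ} (hT : 0 ≤ T) (hδ : 0 ≤ δ)
    (hM : ∀ t, T ≤ t → ∀ y, |P t y| ≤ M) :
    En ℓ P T - En ℓ P (T + δ) ≤ 4 * κ * (2 * M) ^ α * δ * En ℓ P T := by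
  have hκ := h.kpos
  have hM0 : 0 ≤ M := (abs_nonneg _).trans (hM T le_rfl 0)
  have hMa : 0 ≤ (2 * M) ^ α := Real.rpow_nonneg (by linarith) α
  rw [h.energy_identity hT (by linarith : T ≤ T + δ)]
  have h1 : ∫ s in T..(T + δ), psi α ℓ P s ≤ ∫ _s in T..(T + δ), 4 * (2 * M) ^ α * En ℓ P T := by
    apply intervalIntegral.integral_mono_on (by linarith) (h.psi_cont.intervalIntegrable _ _)
      (continuous_const.intervalIntegrable _ _)
    intro s hs
    refine (h.psi_le (hM s hs.1)).trans ?_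
    apply mul_le_mul_of_nonneg_left (h.En_anti hT hs.1)
    positivity
  rw [intervalIntegral.integral_const, smul_eq_mul] at h1
  have h2 := mul_le_mul_of_nonneg_left h1 hκ.le
  have h3 : T + δ - T = δ := by ring
  rw [h3] at h2
  linarith

/-- Positivity of the energy for all times. -/
theorem En_pos (h : CharSol κ α ℓ P) {M : ℝ} (hM : ∀ t, 0 ≤ t → ∀ y, |P t y| ≤ M)
    (h0 : 0 < En ℓ P 0) : ∀ t, 0 ≤ t → 0 < En ℓ P t := by
  have hκ := h.kpos
  have hM0 : 0 ≤ M := (abs_nonneg _).trans (hM 0 le_rfl 0)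
  have hMa : 0 ≤ (2 * M) ^ α := Real.rpow_nonneg (by linarith) α
  set K : ℝ := 4 * κ * (2 * M) ^ α with hK
  have hK0 : 0 ≤ K := by positivity
  set δ : ℝ := 1 / (2 * (K + 1)) with hδ
  have hδpos : 0 < δ := by positivity
  have hKδ : K * δ ≤ 1 / 2 := by
    rw [hδ, mul_one_div, div_le_iff₀ (by positivity)]
    linarith
  have hn : ∀ n : ℕ, 0 < En ℓ P (n * δ) := by
    intro n
    induction n with
    | zero => simpa using h0
    | succ n ih =>
      have hnd : 0 ≤ (n : ℝ) * δ := by positivity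
      have h1 := h.drop_le hnd hδpos.le (fun t ht => hM t (hnd.trans ht))
      have h2 : (n : ℝ) * δ + δ = ((n + 1 : ℕ) : ℝ) * δ := by push_cast; ring
      rw [h2] at h1
      have h3 : K * δ * En ℓ P (n * δ) ≤ 1 / 2 * En ℓ P (n * δ) :=
        mul_le_mul_of_nonneg_right hKδ ih.le
      linarith
  intro t ht
  obtain ⟨n, hn'⟩ := exists_nat_ge (t / δ)
  have h1 : t ≤ n * δ := by rwa [div_le_iff₀ hδpos] at hn'
  exact lt_of_lt_of_le (hn n) (h.En_anti ht h1)

/-- The two-sided bound. -/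
theorem rate (h : CharSol κ α ℓ P) (h0 : 0 < En ℓ P 0) :
    ∃ c C : ℝ, 0 < c ∧ 0 < C ∧ ∀ t, 0 ≤ t →
      c * (1 + t) ^ (-(2 / α)) ≤ En ℓ P t ∧ En ℓ P t ≤ C * (1 + t) ^ (-(2 / α)) := by
  have hα := h.apos
  have hκ := h.kpos
  have hℓ := h.lpos
  obtain ⟨A, b, hA, hb, hdec⟩ := h.sup_decay
  set m : ℝ := min A (α * b) with hm
  have hmpos : 0 < m := lt_min hA (by positivity)
  have hden : ∀ k : ℕ, m * ((k : ℝ) + 1) ≤ A + α * b * k := by
    intro k
    have h1 : m ≤ A := min_le_left _ _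
    have h2 : m ≤ α * b := min_le_right _ _
    have hk : (0 : ℝ) ≤ k := by positivity
    nlinarith
  set M : ℕ → ℝ := fun k => (A + α * b * k) ^ (-(1 / α)) with hM
  have hdpos : ∀ k : ℕ, 0 < A + α * b * k := fun k => by positivity
  have hMpos : ∀ k, 0 < M k := fun k => Real.rpow_pos_of_pos (hdpos k) _
  have hMα : ∀ k : ℕ, (2 * M k) ^ α ≤ 2 ^ α / m / ((k : ℝ) + 1) := by
    intro k
    rw [Real.mul_rpow (by norm_num) (hMpos k).le]
    have h1 : M k ^ α = (A + α * b * k)⁻¹ := by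
      simp only [hM]
      rw [← Real.rpow_mul (hdpos k).le]
      have : -(1 / α) * α = -1 := by field_simp
      rw [this, Real.rpow_neg_one]
    rw [h1]
    have h2 : (A + α * b * k)⁻¹ ≤ (m * ((k : ℝ) + 1))⁻¹ :=
      inv_anti₀ (by positivity) (hden k)
    have h3 : (0 : ℝ) ≤ 2 ^ α := by positivity
    calc (2 : ℝ) ^ α * (A + α * b * k)⁻¹ ≤ 2 ^ α * (m * ((k : ℝ) + 1))⁻¹ :=
          mul_le_mul_of_nonneg_left h2 h3
      _ = 2 ^ α / m / ((k : ℝ) + 1) := by rw [mul_inv]; ring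
  set L : ℝ := 2 ^ α / m with hL
  have hL0 : 0 < L := by positivity
  have hdec' : ∀ (k : ℕ) (t : ℝ), k * ℓ ≤ t → ∀ y, |P t y| ≤ M k :=
    fun k t ht y => hdec k t y ht
  have hpos : ∀ t, 0 ≤ t → 0 < En ℓ P t := by
    apply h.En_pos (M := M 0) _ h0
    intro t ht y
    exact hdec' 0 t (by simpa using ht) y
  -- the sequence
  set E : ℕ → ℝ := fun k => En ℓ P (k * ℓ) with hE
  set ε : ℕ → ℝ := fun k =>
    8 * (α + 2) * κ ^ 2 * (α + 1) * ℓ ^ 2 * ((2 * M k) ^ α) ^ 2 with hε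
  have hkl : ∀ k : ℕ, (0 : ℝ) ≤ k * ℓ := fun k => by positivity
  have hsucc : ∀ k : ℕ, ((k + 1 : ℕ) : ℝ) * ℓ = k * ℓ + ℓ := fun k => by push_cast; ring
  have hsucc2 : ∀ k : ℕ, ((k + 2 : ℕ) : ℝ) * ℓ = k * ℓ + 2 * ℓ := fun k => by push_cast; ring
  set C : ℝ := 8 * (α + 2) * κ ^ 2 * (α + 1) * ℓ ^ 2 * L ^ 2 + 4 * κ * ℓ * L with hC
  obtain ⟨c, hc, hlow⟩ := seq_lower (α := α) hα (E := E) (ε := ε) (C := C)
    (fun k => hpos _ (hkl k))
    (fun k => by
      simp only [hE]
      rw [hsucc]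
      exact h.En_anti (hkl k) (by linarith))
    (fun k => by
      simp only [hε]
      positivity)
    (fun k => by
      simp only [hε]
      have hk1 : (0 : ℝ) < (k : ℝ) + 1 := by positivity
      have h1 : ((2 * M k) ^ α) ^ 2 ≤ (L / ((k : ℝ) + 1)) ^ 2 :=
        pow_le_pow_left₀ (Real.rpow_nonneg (by have := hMpos k; positivity) _) (hMα k) 2
      rw [div_pow] at h1
      have h2 : 0 ≤ 8 * (α + 2) * κ ^ 2 * (α + 1) * ℓ ^ 2 := by positivity
      have h3 := mul_le_mul_of_nonneg_left h1 h2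
      refine h3.trans ?_
      rw [← mul_div_assoc]
      apply div_le_div_of_nonneg_right _ (by positivity)
      rw [hC]
      have : 0 ≤ 4 * κ * ℓ * L := by positivity
      linarith)
    (fun k => by
      simp only [hE]
      rw [hsucc]
      have hk1 : (0 : ℝ) < (k : ℝ) + 1 := by positivity
      have h1 := h.drop_le (hkl k) hℓ.le (hdec' k)
      refine h1.trans ?_
      apply mul_le_mul_of_nonneg_right _ (h.En_nonneg _)
      have h2 := mul_le_mul_of_nonneg_left (hMα k) (by positivity : 0 ≤ 4 * κ * ℓ)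
      have h3 : 4 * κ * ℓ * (L / ((k : ℝ) + 1)) ≤ C / ((k : ℝ) + 1) := by
        rw [← mul_div_assoc]
        apply div_le_div_of_nonneg_right _ hk1.le
        rw [hC]
        have : 0 ≤ 8 * (α + 2) * κ ^ 2 * (α + 1) * ℓ ^ 2 * L ^ 2 := by positivity
        linarith
      linarith)
    (fun k => by
      simp only [hE, hε]
      rw [hsucc, hsucc2]
      exact h.key_step (hkl k) (hdec' k))
  -- continuous time
  set B : ℝ := 2 + 1 / ℓ with hB
  have hBpos : 0 < B := by positivity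
  have hneg : -(2 / α) ≤ 0 := by
    have : 0 < 2 / α := by positivity
    linarith
  refine ⟨c * B ^ (-(2 / α)), 2 * ℓ * (m / (1 + ℓ)) ^ (-(2 / α)), by positivity, by positivity, ?_⟩
  intro t ht
  set k : ℕ := ⌊t / ℓ⌋₊ with hk
  have htl : 0 ≤ t / ℓ := by positivity
  have hk1 : (k : ℝ) ≤ t / ℓ := Nat.floor_le htl
  have hk2 : t / ℓ < (k : ℝ) + 1 := Nat.lt_floor_add_one _
  have hk3 : (k : ℝ) * ℓ ≤ t := by rwa [le_div_iff₀ hℓ] at hk1
  have hk4 : t < ((k : ℝ) + 1) * ℓ := by rwa [div_lt_iff₀ hℓ] at hk2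
  constructor
  · have h1 := hlow (k + 1)
    simp only [hE] at h1
    rw [hsucc] at h1
    have h2 : En ℓ P (k * ℓ + ℓ) ≤ En ℓ P t := h.En_anti ht (by linarith)
    refine le_trans ?_ (h1.trans h2)
    rw [mul_assoc]
    apply mul_le_mul_of_nonneg_left _ hc.le
    rw [← Real.mul_rpow hBpos.le (by linarith)]
    apply Real.rpow_le_rpow_of_nonpos (by positivity) _ hneg
    push_cast
    have h3 : B * (1 + t) = 2 + 2 * t + 1 / ℓ + t / ℓ := by rw [hB]; ring
    rw [h3]
    have : 0 < 1 / ℓ := by positivity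
    linarith
  · have h1 : En ℓ P t ≤ 2 * ℓ * M k ^ 2 := by
      unfold En
      have hb := hdec' k t hk3
      have h2 : ∫ y in (0 : ℝ)..(2 * ℓ), P t y ^ 2 ≤ ∫ _y in (0 : ℝ)..(2 * ℓ), M k ^ 2 := by
        apply intervalIntegral.integral_mono_on (by linarith)
          (((h.contP continuous_const continuous_id).pow 2).intervalIntegrable _ _)
          (continuous_const.intervalIntegrable _ _)
        intro y _
        show P t y ^ 2 ≤ M k ^ 2
        exact sq_le_sq' (abs_le.mp (hb y)).1 (abs_le.mp (hb y)).2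
      rw [intervalIntegral.integral_const, smul_eq_mul, sub_zero] at h2
      exact h2
    refine h1.trans ?_
    rw [mul_assoc (2 * ℓ)]
    apply mul_le_mul_of_nonneg_left _ (by positivity)
    have h2 : M k ^ 2 = (A + α * b * k) ^ (-(2 / α)) := by
      simp only [hM]
      rw [← Real.rpow_natCast, ← Real.rpow_mul (hdpos k).le]
      congr 1
      push_cast; ring
    rw [h2, ← Real.mul_rpow (by positivity) (by linarith)]
    apply Real.rpow_le_rpow_of_nonpos (by positivity) _ hneg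
    refine le_trans ?_ (hden k)
    rw [div_mul_eq_mul_div, mul_div_assoc]
    apply mul_le_mul_of_nonneg_left _ hmpos.le
    rw [div_le_iff₀ (by positivity)]
    nlinarith

end CharSol

end Pool.Agent.Helper39_Wave
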