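import Pool.Agent.Helper39_Wave.Basic

/-!
Energy identities and the key monotonicity estimate.
-/

set_option autoImplicit false

open Real Filter Topology Set MeasureTheory

namespace Pool.Agent.Helper39_Wave

/-- Cauchy–Schwarz for continuous functions. -/
theorem sq_integral_mul_le {a b : ℝ} (hab : a ≤ b) {u v : ℝ → ℝ} (hu : Continuous u)
    (hv : Continuous v) :
    (∫ x in a..b, u x * v x) ^ 2 ≤ (∫ x in a..b, u x ^ 2) * ∫ x in a..b, v x ^ 2 := by
  have key : ∀ x : ℝ, 0 ≤ (∫ t in a..b, u t ^ 2) * (x * x) + (2 * ∫ t in a..b, u t * v t) * x +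
      ∫ t in a..b, v t ^ 2 := by
    intro x
    have h1 : 0 ≤ ∫ t in a..b, (x * u t + v t) ^ 2 :=
      intervalIntegral.integral_nonneg hab (fun _ _ => sq_nonneg _)
    have h2 : ∫ t in a..b, (x * u t + v t) ^ 2 =
        (∫ t in a..b, u t ^ 2) * (x * x) + (2 * ∫ t in a..b, u t * v t) * x +
      ∫ t in a..b, v t ^ 2 := by
      have h3 : ∀ t, (x * u t + v t) ^ 2 = (x * x) * u t ^ 2 + (2 * x) * (u t * v t) + v t ^ 2 := by
        intro t; ring
      simp_rw [h3]
      rw [intervalIntegral.integral_add, intervalIntegral.integral_add,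
        intervalIntegral.integral_const_mul, intervalIntegral.integral_const_mul]
      · ring
      · exact (continuous_const.mul (hu.pow 2)).intervalIntegrable _ _
      · exact (continuous_const.mul (hu.mul hv)).intervalIntegrable _ _
      · exact ((continuous_const.mul (hu.pow 2)).add
          (continuous_const.mul (hu.mul hv))).intervalIntegrable _ _
      · exact (hv.pow 2).intervalIntegrable _ _
    rw [h2] at h1
    exact h1
  have h := discrim_le_zero key
  unfold discrim at h
  nlinarith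

theorem sq_integral_le {a b : ℝ} (hab : a ≤ b) {u : ℝ → ℝ} (hu : Continuous u) :
    (∫ x in a..b, u x) ^ 2 ≤ (b - a) * ∫ x in a..b, u x ^ 2 := by
  have h := sq_integral_mul_le hab hu (continuous_const (y := (1 : ℝ)))
  simp only [mul_one, one_pow, intervalIntegral.integral_const, smul_eq_mul] at h
  linarith

theorem integral_reflect {g : ℝ → ℝ} {ℓ : ℝ} (hg : Function.Periodic g (2 * ℓ)) (s : ℝ) :
    ∫ y in (0 : ℝ)..(2 * ℓ), g (2 * s - y) = ∫ y in (0 : ℝ)..(2 * ℓ), g y := by
  rw [intervalIntegral.integral_comp_sub_left]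
  have h1 : 2 * s - 0 = (2 * s - 2 * ℓ) + 2 * ℓ := by ring
  rw [h1, hg.intervalIntegral_add_eq (2 * s - 2 * ℓ) 0, zero_add]

theorem integrableOn_rect {F : ℝ × ℝ → ℝ} (hF : Continuous F) (a b c d : ℝ) :
    IntegrableOn F (uIoc a b ×ˢ uIoc c d) := by
  have h1 : IntegrableOn F (uIcc a b ×ˢ uIcc c d) :=
    hF.continuousOn.integrableOn_compact (isCompact_uIcc.prod isCompact_uIcc)
  exact h1.mono_set (prod_mono uIoc_subset_uIcc uIoc_subset_uIcc)

/-- Swap of two interval integrals of a continuous function. -/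
theorem integral_swap_cont {F : ℝ → ℝ → ℝ} (hF : Continuous (fun z : ℝ × ℝ => F z.1 z.2))
    (a b c d : ℝ) :
    ∫ x in a..b, ∫ y in c..d, F x y = ∫ y in c..d, ∫ x in a..b, F x y :=
  intervalIntegral_intervalIntegral_swap (integrableOn_rect hF a b c d)

/-- One variable estimate. -/
theorem J_bound {g : ℝ → ℝ} (hg : Continuous g) {κ ℓ T : ℝ} (hκ : 0 < κ) (hℓ : 0 < ℓ) :
    ∫ t in T..(T + ℓ), g (t + ℓ) * (-κ * ∫ r in t..(t + ℓ), g r) ≤
      -κ * (∫ r in (T + ℓ)..(T + 2 * ℓ), g r) ^ 2 +
      κ * ((∫ r in T..(T + ℓ), |g r - g (r + ℓ)|) * ∫ r in T..(T + 2 * ℓ), |g r|) := by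
  have hTT : T ≤ T + ℓ := by linarith
  set F : ℝ := ∫ r in (T + ℓ)..(T + 2 * ℓ), g r with hF
  set V : ℝ := ∫ r in T..(T + ℓ), |g r - g (r + ℓ)| with hV
  have hii : ∀ a b, IntervalIntegrable g volume a b := fun a b => hg.intervalIntegrable a b
  have hcd : Continuous (fun r => g r - g (r + ℓ)) := hg.sub (hg.comp (by fun_prop))
  have hgs : Continuous (fun t => g (t + ℓ)) := hg.comp (by fun_prop)
  have hV0 : 0 ≤ V := intervalIntegral.integral_nonneg hTT (fun _ _ => abs_nonneg _)
  have hcont : Continuous (fun t => ∫ r in t..(t + ℓ), g r) := by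
    have h1 : (fun t => ∫ r in t..(t + ℓ), g r) =
        fun t => (∫ r in (0 : ℝ)..(t + ℓ), g r) - ∫ r in (0 : ℝ)..t, g r := by
      funext t
      rw [intervalIntegral.integral_interval_sub_left (hii _ _) (hii _ _)]
    rw [h1]
    have h2 := intervalIntegral.continuous_primitive hii 0
    exact (h2.comp (by fun_prop : Continuous fun t : ℝ => t + ℓ)).sub h2
  have hpt : ∀ t ∈ Icc T (T + ℓ), g (t + ℓ) * (-κ * ∫ r in t..(t + ℓ), g r) ≤
      (-κ * F) * g (t + ℓ) + (κ * V) * |g (t + ℓ)| := by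
    intro t ht
    have h1 : ∫ r in t..(t + ℓ), g r = F + ∫ r in t..(T + ℓ), (g r - g (r + ℓ)) := by
      rw [intervalIntegral.integral_sub (hii _ _) (hgs.intervalIntegrable _ _)]
      rw [intervalIntegral.integral_comp_add_right]
      have e1 : ∫ r in t..(t + ℓ), g r = (∫ r in t..(T + ℓ), g r) +
          ∫ r in (T + ℓ)..(t + ℓ), g r :=
        (intervalIntegral.integral_add_adjacent_intervals (hii _ _) (hii _ _)).symm
      have e2 : F = (∫ r in (T + ℓ)..(t + ℓ), g r) + ∫ r in (t + ℓ)..(T + ℓ + ℓ), g r := by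
        rw [hF, intervalIntegral.integral_add_adjacent_intervals (hii _ _) (hii _ _)]
        congr 1; ring
      rw [e1, e2]; ring
    have h2 : |∫ r in t..(T + ℓ), (g r - g (r + ℓ))| ≤ V := by
      have e1 : |∫ r in t..(T + ℓ), (g r - g (r + ℓ))| ≤
          ∫ r in t..(T + ℓ), |g r - g (r + ℓ)| :=
        intervalIntegral.abs_integral_le_integral_abs ht.2
      have e2 : V = (∫ r in T..t, |g r - g (r + ℓ)|) + ∫ r in t..(T + ℓ), |g r - g (r + ℓ)| := by
        rw [hV, intervalIntegral.integral_add_adjacent_intervals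
          (hcd.abs.intervalIntegrable _ _) (hcd.abs.intervalIntegrable _ _)]
      have e3 : 0 ≤ ∫ r in T..t, |g r - g (r + ℓ)| :=
        intervalIntegral.integral_nonneg ht.1 (fun _ _ => abs_nonneg _)
      linarith
    rw [h1]
    set R : ℝ := ∫ r in t..(T + ℓ), (g r - g (r + ℓ)) with hR
    have h3 : -(g (t + ℓ) * R) ≤ V * |g (t + ℓ)| := by
      calc -(g (t + ℓ) * R) ≤ |g (t + ℓ) * R| := neg_le_abs _
        _ = |g (t + ℓ)| * |R| := abs_mul _ _
        _ ≤ |g (t + ℓ)| * V := mul_le_mul_of_nonneg_left h2 (abs_nonneg _)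
        _ = _ := mul_comm _ _
    have h4 := mul_le_mul_of_nonneg_left h3 hκ.le
    nlinarith
  have c1 : Continuous (fun t => g (t + ℓ) * (-κ * ∫ r in t..(t + ℓ), g r)) :=
    hgs.mul (continuous_const.mul hcont)
  have c2 : Continuous (fun t => (-κ * F) * g (t + ℓ)) := continuous_const.mul hgs
  have c3 : Continuous (fun t => (κ * V) * |g (t + ℓ)|) := continuous_const.mul hgs.abs
  have c4 : Continuous (fun t => (-κ * F) * g (t + ℓ) + (κ * V) * |g (t + ℓ)|) := c2.add c3
  have hI : ∫ t in T..(T + ℓ), g (t + ℓ) * (-κ * ∫ r in t..(t + ℓ), g r) ≤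
      ∫ t in T..(T + ℓ), ((-κ * F) * g (t + ℓ) + (κ * V) * |g (t + ℓ)|) :=
    intervalIntegral.integral_mono_on (μ := volume) hTT
      (c1.intervalIntegrable _ _) (c4.intervalIntegrable _ _) hpt
  refine hI.trans ?_
  rw [intervalIntegral.integral_add (c2.intervalIntegrable _ _) (c3.intervalIntegrable _ _),
    intervalIntegral.integral_const_mul, intervalIntegral.integral_const_mul]
  have h5 : ∫ t in T..(T + ℓ), g (t + ℓ) = F := by
    rw [intervalIntegral.integral_comp_add_right, hF]
    congr 1; ring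
  have h6 : ∫ t in T..(T + ℓ), |g (t + ℓ)| ≤ ∫ r in T..(T + 2 * ℓ), |g r| := by
    rw [intervalIntegral.integral_comp_add_right (fun t => |g t|)]
    have e0 : T + ℓ + ℓ = T + 2 * ℓ := by ring
    rw [e0]
    have e1 : ∫ r in T..(T + 2 * ℓ), |g r| = (∫ r in T..(T + ℓ), |g r|) +
        ∫ r in (T + ℓ)..(T + 2 * ℓ), |g r| :=
      (intervalIntegral.integral_add_adjacent_intervals (hg.abs.intervalIntegrable _ _)
        (hg.abs.intervalIntegrable _ _)).symm
    have e2 : 0 ≤ ∫ r in T..(T + ℓ), |g r| :=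
      intervalIntegral.integral_nonneg hTT (fun _ _ => abs_nonneg _)
    linarith
  rw [h5]
  have h7 : κ * V * ∫ t in T..(T + ℓ), |g (t + ℓ)| ≤ κ * V * ∫ r in T..(T + 2 * ℓ), |g r| :=
    mul_le_mul_of_nonneg_left h6 (mul_nonneg hκ.le hV0)
  nlinarith

/-- The squared `L²` norm over a period. -/
noncomputable def En (ℓ : ℝ) (P : ℝ → ℝ → ℝ) (t : ℝ) : ℝ := ∫ y in (0 : ℝ)..(2 * ℓ), P t y ^ 2

/-- The dissipation. -/
noncomputable def psi (α ℓ : ℝ) (P : ℝ → ℝ → ℝ) (s : ℝ) : ℝ :=
  ∫ y in (0 : ℝ)..(2 * ℓ), |P s y - P s (2 * s - y)| ^ (α + 2)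

/-- The nonlinearity along the solution. -/
noncomputable def ff (α : ℝ) (P : ℝ → ℝ → ℝ) (s y : ℝ) : ℝ := phi α (P s y - P s (2 * s - y))

variable {κ α ℓ : ℝ} {P : ℝ → ℝ → ℝ}

namespace CharSol

theorem cff (h : CharSol κ α ℓ P) {X : Type*} [TopologicalSpace X] {a b : X → ℝ}
    (ha : Continuous a) (hb : Continuous b) : Continuous (fun x => ff α P (a x) (b x)) :=
  h.contF ha hb

theorem cD (h : CharSol κ α ℓ P) {X : Type*} [TopologicalSpace X] {a b : X → ℝ}
    (ha : Continuous a) (hb : Continuous b) :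
    Continuous (fun x => |P (a x) (b x) - P (a x) (2 * a x - b x)| ^ (α + 2)) := by
  apply Continuous.rpow_const
  · exact ((h.contP ha hb).sub (h.contP ha ((continuous_const.mul ha).sub hb))).abs
  · intro x
    right
    linarith [h.apos]

theorem ff_anti (s y : ℝ) : ff α P s (2 * s - y) = -ff α P s y := by
  unfold ff
  rw [← phi_neg]
  congr 1
  rw [show 2 * s - (2 * s - y) = y by ring]
  ring

theorem per_sub (h : CharSol κ α ℓ P) (s y : ℝ) : P s (y - 2 * ℓ) = P s y := by
  have := h.per s (y - 2 * ℓ)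
  rw [sub_add_cancel] at this
  exact this.symm

theorem ff_per (h : CharSol κ α ℓ P) (s : ℝ) : Function.Periodic (ff α P s) (2 * ℓ) := by
  intro y
  unfold ff
  rw [h.per]
  have h1 : 2 * s - (y + 2 * ℓ) = (2 * s - y) - 2 * ℓ := by ring
  rw [h1, h.per_sub]

theorem integral_anti (h : CharSol κ α ℓ P) {G : ℝ → ℝ} (hG : Continuous G)
    (hper : Function.Periodic G (2 * ℓ)) (s : ℝ) :
    ∫ y in (0 : ℝ)..(2 * ℓ), ff α P s y * (G y - G (2 * s - y)) =
      2 * ∫ y in (0 : ℝ)..(2 * ℓ), ff α P s y * G y := by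
  have hf : Continuous (ff α P s) := h.cff continuous_const continuous_id
  have hG2 : Continuous (fun y => G (2 * s - y)) := hG.comp (by fun_prop)
  have h1 : ∫ y in (0 : ℝ)..(2 * ℓ), ff α P s y * G (2 * s - y) =
      -∫ y in (0 : ℝ)..(2 * ℓ), ff α P s y * G y := by
    have h2 : ∀ y, ff α P s y * G (2 * s - y) =
        -((fun z => ff α P s z * G z) (2 * s - y)) := by
      intro y
      simp only
      rw [ff_anti]; ring
    simp_rw [h2]
    rw [intervalIntegral.integral_neg]
    congr 1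
    apply integral_reflect (g := fun z => ff α P s z * G z)
    intro y
    simp only
    rw [hper y, h.ff_per s y]
  have h3 : ∀ y, ff α P s y * (G y - G (2 * s - y)) =
      ff α P s y * G y - ff α P s y * G (2 * s - y) := by intro y; ring
  simp_rw [h3]
  have c1 : Continuous (fun y => ff α P s y * G y) := hf.mul hG
  have c2 : Continuous (fun y => ff α P s y * G (2 * s - y)) := hf.mul hG2
  rw [intervalIntegral.integral_sub (c1.intervalIntegrable _ _) (c2.intervalIntegrable _ _), h1]
  ring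

theorem psi_eq (h : CharSol κ α ℓ P) (s : ℝ) :
    psi α ℓ P s = 2 * ∫ y in (0 : ℝ)..(2 * ℓ), ff α P s y * P s y := by
  have hc : Continuous (P s) := h.contP continuous_const continuous_id
  rw [← h.integral_anti hc (h.periodic s) s]
  unfold psi
  congr 1
  funext y
  rw [← mul_phi h.apos]
  unfold ff
  ring

theorem psi_nonneg (h : CharSol κ α ℓ P) (s : ℝ) : 0 ≤ psi α ℓ P s := by
  unfold psi
  apply intervalIntegral.integral_nonneg (by linarith [h.lpos])
  intro y _
  exact Real.rpow_nonneg (abs_nonneg _) _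

theorem psi_cont (h : CharSol κ α ℓ P) : Continuous (psi α ℓ P) := by
  unfold psi
  apply intervalIntegral.continuous_parametric_intervalIntegral_of_continuous'
  exact h.cD continuous_fst continuous_snd

/-- The energy identity. -/
theorem energy_identity (h : CharSol κ α ℓ P) {t1 t2 : ℝ} (ht1 : 0 ≤ t1) (ht : t1 ≤ t2) :
    En ℓ P t1 - En ℓ P t2 = κ * ∫ s in t1..t2, psi α ℓ P s := by
  have hcP : Continuous (fun z : ℝ × ℝ => P z.1 z.2) := h.cont
  have hpt : ∀ y, P t2 y ^ 2 - P t1 y ^ 2 = ∫ s in t1..t2, (-2 * κ) * (ff α P s y * P s y) := by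
    intro y
    symm
    apply intervalIntegral.integral_eq_sub_of_hasDerivAt_of_le ht
      (f := fun s => P s y ^ 2)
    · exact ((h.contP continuous_id continuous_const).pow 2).continuousOn
    · intro x hx
      have h1 := (h.hasDerivAt (lt_of_le_of_lt ht1 hx.1) y).pow 2
      have h2 : ((2 : ℕ) : ℝ) * P x y ^ (2 - 1) * (-κ * phi α (P x y - P x (2 * x - y))) =
          (-2 * κ) * (ff α P x y * P x y) := by
        unfold ff
        push_cast
        ring
      rw [h2] at h1
      exact h1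
    · apply Continuous.intervalIntegrable
      apply continuous_const.mul
      exact (h.cff continuous_id continuous_const).mul (h.contP continuous_id continuous_const)
  have h1 : En ℓ P t2 - En ℓ P t1 =
      ∫ y in (0 : ℝ)..(2 * ℓ), ∫ s in t1..t2, (-2 * κ) * (ff α P s y * P s y) := by
    unfold En
    rw [← intervalIntegral.integral_sub]
    · congr 1
      funext y
      exact hpt y
    · exact ((h.contP continuous_const continuous_id).pow 2).intervalIntegrable _ _
    · exact ((h.contP continuous_const continuous_id).pow 2).intervalIntegrable _ _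
  have h2 : ∫ y in (0 : ℝ)..(2 * ℓ), ∫ s in t1..t2, (-2 * κ) * (ff α P s y * P s y) =
      ∫ s in t1..t2, ∫ y in (0 : ℝ)..(2 * ℓ), (-2 * κ) * (ff α P s y * P s y) := by
    apply integral_swap_cont
    apply continuous_const.mul
    exact (h.cff continuous_snd continuous_fst).mul (h.contP continuous_snd continuous_fst)
  have h3 : ∀ s, ∫ y in (0 : ℝ)..(2 * ℓ), (-2 * κ) * (ff α P s y * P s y) =
      -κ * psi α ℓ P s := by
    intro s
    rw [intervalIntegral.integral_const_mul, h.psi_eq]
    ring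
  simp_rw [h3] at h2
  rw [h2, intervalIntegral.integral_const_mul] at h1
  linarith

end CharSol

end Pool.Agent.Helper39_Wave
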