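import Pool.Agent.Helper39_Wave.Energy

/-!
Existence of a `C¹` solution of the truncated characteristic equation by Picard iteration.
-/

set_option autoImplicit false

open Real Filter Topology Set MeasureTheory

namespace Pool.Agent.Helper39_Wave

theorem integral_exp_abs_le {A l : ℝ} (hA : 0 ≤ A) (hl : 0 < l) (t : ℝ) :
    |∫ s in (0 : ℝ)..t, A * Real.exp (l * |s|)| ≤ A / l * Real.exp (l * |t|) := by
  have pos : ∀ t : ℝ, 0 ≤ t → |∫ s in (0 : ℝ)..t, A * Real.exp (l * |s|)| ≤
      A / l * Real.exp (l * |t|) := by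
    intro t ht
    have h1 : ∫ s in (0 : ℝ)..t, A * Real.exp (l * |s|) = ∫ s in (0 : ℝ)..t, A * Real.exp (l * s) := by
      apply intervalIntegral.integral_congr
      intro s hs
      rw [uIcc_of_le ht] at hs
      simp only
      rw [abs_of_nonneg hs.1]
    have h2 : ∫ s in (0 : ℝ)..t, A * Real.exp (l * s) = A / l * Real.exp (l * t) -
        A / l * Real.exp (l * 0) := by
      apply intervalIntegral.integral_eq_sub_of_hasDerivAt
        (f := fun s => A / l * Real.exp (l * s))
      · intro x _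
        have h3 : HasDerivAt (fun s => l * s) l x := by
          simpa using (hasDerivAt_id x).const_mul l
        have h4 := (h3.exp).const_mul (A / l)
        have h5 : A / l * (Real.exp (l * x) * l) = A * Real.exp (l * x) := by
          field_simp
        rw [h5] at h4
        exact h4
      · apply Continuous.intervalIntegrable
        fun_prop
    rw [h1, h2, abs_of_nonneg ht, mul_zero, Real.exp_zero, mul_one]
    have h3 : 0 ≤ A / l := by positivity
    have h4 : 1 ≤ Real.exp (l * t) := Real.one_le_exp (by positivity)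
    rw [abs_of_nonneg (by nlinarith)]
    linarith
  rcases le_total 0 t with ht | ht
  · exact pos t ht
  · have h1 := pos (-t) (by linarith)
    have h2 : ∫ s in (0 : ℝ)..(-t), A * Real.exp (l * |s|) =
        -∫ s in (0 : ℝ)..t, A * Real.exp (l * |s|) := by
      have h3 := intervalIntegral.integral_comp_neg (a := 0) (b := t)
        (f := fun s => A * Real.exp (l * |s|))
      simp only [abs_neg, neg_zero] at h3
      rw [h3, intervalIntegral.integral_symm]
    rw [h2, abs_neg, abs_neg] at h1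
    exact h1

/-- Bound of the primitive of a function of exponential growth. -/
theorem abs_integral_le_exp {A l T : ℝ} (hA : 0 ≤ A) (hl : 0 < l) {g : ℝ → ℝ} {t : ℝ}
    (ht : |t| ≤ T) (hg : ∀ s, |s| ≤ T → |g s| ≤ A * Real.exp (l * |s|)) :
    |∫ s in (0 : ℝ)..t, g s| ≤ A / l * Real.exp (l * |t|) := by
  refine le_trans ?_ (integral_exp_abs_le hA hl t)
  have h := intervalIntegral.norm_integral_le_abs_of_norm_le (μ := volume) (f := g) (a := 0)
    (b := t) (g := fun s => A * Real.exp (l * |s|))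
    (ae_restrict_of_forall_mem measurableSet_uIoc (fun s hs => by
      rw [Real.norm_eq_abs]
      apply hg
      have h1 : s ∈ uIcc 0 t := uIoc_subset_uIcc hs
      rw [mem_uIcc] at h1
      refine le_trans ?_ ht
      rcases h1 with h1 | h1
      · rw [abs_of_nonneg h1.1]; exact h1.2.trans (le_abs_self _)
      · rw [abs_of_nonpos h1.2, abs_of_nonpos (h1.1.trans h1.2)]; linarith [h1.1]))
    (Continuous.intervalIntegrable (by fun_prop) _ _)
  rw [Real.norm_eq_abs] at h
  exact h

/-- Locally uniform convergence from a locally bounded rate. -/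
theorem tendstoLocallyUniformly_of_le {F : ℕ → ℝ × ℝ → ℝ} {f : ℝ × ℝ → ℝ}
    (h : ∀ T : ℝ, 0 ≤ T → ∀ ε : ℝ, 0 < ε → ∃ N : ℕ, ∀ n, N ≤ n → ∀ z : ℝ × ℝ, |z.1| ≤ T →
      |F n z - f z| < ε) : TendstoLocallyUniformly F f atTop := by
  rw [Metric.tendstoLocallyUniformly_iff]
  intro ε hε x
  obtain ⟨N, hN⟩ := h (|x.1| + 1) (by positivity) ε hε
  refine ⟨{z : ℝ × ℝ | |z.1| < |x.1| + 1}, ?_, ?_⟩
  · apply IsOpen.mem_nhds
    · exact isOpen_lt (continuous_fst.abs) continuous_const
    · simp
  · filter_upwards [eventually_ge_atTop N] with n hn z hz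
    rw [dist_comm, Real.dist_eq]
    exact hN n hn z (le_of_lt hz)

/-- The data of the truncated problem. -/
structure Setup (κ K B : ℝ) (Φ ω p0 p1 : ℝ → ℝ) : Prop where
  kpos : 0 < κ
  Kpos : 0 < K
  Bnn : 0 ≤ B
  hΦ : ∀ s, HasDerivAt Φ (ω s) s
  hω : UniformContinuous ω
  hωK : ∀ s, |ω s| ≤ K
  hp : ∀ y, HasDerivAt p0 (p1 y) y
  hp1 : Continuous p1
  hp0B : ∀ y, |p0 y| ≤ B
  hp1B : ∀ y, |p1 y| ≤ B

/-- Picard iterates. -/
noncomputable def It (κ : ℝ) (Φ p0 : ℝ → ℝ) : ℕ → ℝ → ℝ → ℝ
  | 0 => fun _ y => p0 y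
  | n + 1 => fun t y => p0 y - κ * ∫ s in (0 : ℝ)..t,
      Φ (It κ Φ p0 n s y - It κ Φ p0 n s (2 * s - y))

/-- Iterates of the derivative. -/
noncomputable def Dt (κ : ℝ) (Φ ω p0 p1 : ℝ → ℝ) : ℕ → ℝ → ℝ → ℝ
  | 0 => fun _ y => p1 y
  | n + 1 => fun t y => p1 y - κ * ∫ s in (0 : ℝ)..t,
      ω (It κ Φ p0 n s y - It κ Φ p0 n s (2 * s - y)) *
        (Dt κ Φ ω p0 p1 n s y + Dt κ Φ ω p0 p1 n s (2 * s - y))

namespace Setup

variable {κ K B : ℝ} {Φ ω p0 p1 : ℝ → ℝ}

theorem cΦ (h : Setup κ K B Φ ω p0 p1) : Continuous Φ :=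
  continuous_iff_continuousAt.mpr fun s => (h.hΦ s).continuousAt

theorem cp0 (h : Setup κ K B Φ ω p0 p1) : Continuous p0 :=
  continuous_iff_continuousAt.mpr fun s => (h.hp s).continuousAt

theorem lip (h : Setup κ K B Φ ω p0 p1) (a b : ℝ) : |Φ b - Φ a| ≤ K * |b - a| := by
  have key := Convex.norm_image_sub_le_of_norm_hasDerivWithin_le (f := Φ)
    (f' := ω) (s := Set.univ) (x := a) (y := b)
    (C := K) (fun x _ => (h.hΦ x).hasDerivWithinAt)
    (fun x _ => by rw [Real.norm_eq_abs]; exact h.hωK x) convex_univ (mem_univ _) (mem_univ _)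
  simpa [Real.norm_eq_abs] using key

theorem cIt (h : Setup κ K B Φ ω p0 p1) (n : ℕ) :
    Continuous (fun z : ℝ × ℝ => It κ Φ p0 n z.1 z.2) := by
  induction n with
  | zero => exact h.cp0.comp continuous_snd
  | succ n ih =>
    have h1 : Continuous (fun z : ℝ × ℝ => ∫ s in (0 : ℝ)..z.1,
        Φ (It κ Φ p0 n s z.2 - It κ Φ p0 n s (2 * s - z.2))) := by
      apply intervalIntegral.continuous_parametric_intervalIntegral_of_continuous
        (f := fun (z : ℝ × ℝ) s => Φ (It κ Φ p0 n s z.2 - It κ Φ p0 n s (2 * s - z.2)))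
      · apply h.cΦ.comp
        apply Continuous.sub
        · exact ih.comp (by fun_prop : Continuous fun w : (ℝ × ℝ) × ℝ => (w.2, w.1.2))
        · exact ih.comp (by fun_prop : Continuous fun w : (ℝ × ℝ) × ℝ => (w.2, 2 * w.2 - w.1.2))
      · exact continuous_fst
    exact (h.cp0.comp continuous_snd).sub (continuous_const.mul h1)

theorem cIt' (h : Setup κ K B Φ ω p0 p1) (n : ℕ) {X : Type*} [TopologicalSpace X] {a b : X → ℝ}
    (ha : Continuous a) (hb : Continuous b) : Continuous (fun x => It κ Φ p0 n (a x) (b x)) :=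
  (h.cIt n).comp (ha.prodMk hb)

theorem cDt (h : Setup κ K B Φ ω p0 p1) (n : ℕ) :
    Continuous (fun z : ℝ × ℝ => Dt κ Φ ω p0 p1 n z.1 z.2) := by
  induction n with
  | zero => exact h.hp1.comp continuous_snd
  | succ n ih =>
    have h1 : Continuous (fun z : ℝ × ℝ => ∫ s in (0 : ℝ)..z.1,
        ω (It κ Φ p0 n s z.2 - It κ Φ p0 n s (2 * s - z.2)) *
        (Dt κ Φ ω p0 p1 n s z.2 + Dt κ Φ ω p0 p1 n s (2 * s - z.2))) := by
      apply intervalIntegral.continuous_parametric_intervalIntegral_of_continuous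
        (f := fun (z : ℝ × ℝ) s => ω (It κ Φ p0 n s z.2 - It κ Φ p0 n s (2 * s - z.2)) *
        (Dt κ Φ ω p0 p1 n s z.2 + Dt κ Φ ω p0 p1 n s (2 * s - z.2)))
      · apply Continuous.mul
        · apply h.hω.continuous.comp
          apply Continuous.sub
          · exact h.cIt' n (by fun_prop) (by fun_prop)
          · exact h.cIt' n (by fun_prop) (by fun_prop)
        · apply Continuous.add
          · exact ih.comp (by fun_prop : Continuous fun w : (ℝ × ℝ) × ℝ => (w.2, w.1.2))
          · exact ih.comp (by fun_prop : Continuous fun w : (ℝ × ℝ) × ℝ => (w.2, 2 * w.2 - w.1.2))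
      · exact continuous_fst
    exact (h.hp1.comp continuous_snd).sub (continuous_const.mul h1)

theorem cDt' (h : Setup κ K B Φ ω p0 p1) (n : ℕ) {X : Type*} [TopologicalSpace X] {a b : X → ℝ}
    (ha : Continuous a) (hb : Continuous b) :
    Continuous (fun x => Dt κ Φ ω p0 p1 n (a x) (b x)) :=
  (h.cDt n).comp (ha.prodMk hb)

end Setup

/-- Differentiation under the integral sign for continuous partial derivatives. -/
theorem hasDerivAt_param_integral {F F' : ℝ → ℝ → ℝ}
    (hF' : Continuous (fun z : ℝ × ℝ => F' z.1 z.2)) (hFc : ∀ x, Continuous (F x))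
    (hF : ∀ x s, HasDerivAt (fun x => F x s) (F' x s) x) (a b x : ℝ) :
    HasDerivAt (fun x => ∫ s in a..b, F x s) (∫ s in a..b, F' x s) x := by
  have hH : Continuous (fun x => ∫ s in a..b, F' x s) :=
    intervalIntegral.continuous_parametric_intervalIntegral_of_continuous' hF' a b
  have h1 : ∀ x', ∫ s in a..b, F x' s = (∫ s in a..b, F x s) +
      ∫ r in x..x', ∫ s in a..b, F' r s := by
    intro x'
    have h2 : ∀ s, F x' s - F x s = ∫ r in x..x', F' r s := by
      intro s
      symm
      apply intervalIntegral.integral_eq_sub_of_hasDerivAt (f := fun r => F r s)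
      · intro r _
        exact hF r s
      · exact (hF'.comp (by fun_prop : Continuous fun r : ℝ => (r, s))).intervalIntegrable _ _
    rw [← integral_swap_cont (F := fun s r => F' r s)
      (hF'.comp (by fun_prop : Continuous fun z : ℝ × ℝ => (z.2, z.1)))]
    have h3 : ∫ s in a..b, ∫ r in x..x', F' r s = ∫ s in a..b, (F x' s - F x s) := by
      congr 1
      funext s
      exact (h2 s).symm
    rw [h3, intervalIntegral.integral_sub ((hFc x').intervalIntegrable _ _)
      ((hFc x).intervalIntegrable _ _)]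
    ring
  have h4 : HasDerivAt (fun x' => (∫ s in a..b, F x s) + ∫ r in x..x', ∫ s in a..b, F' r s)
      (∫ s in a..b, F' x s) x := by
    apply HasDerivAt.const_add
    exact intervalIntegral.integral_hasDerivAt_right (hH.intervalIntegrable x x)
      (hH.stronglyMeasurableAtFilter _ _) hH.continuousAt
  refine h4.congr_of_eventuallyEq ?_
  filter_upwards with x'
  exact h1 x'

end Pool.Agent.Helper39_Wave
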