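import Pool.Agent.Helper39_Wave.Exist

/-!
Convergence of the Picard iterates together with their derivatives.
-/

set_option autoImplicit false

open Real Filter Topology Set MeasureTheory

namespace Pool.Agent.Helper39_Wave

namespace Setup

variable {κ K B : ℝ} {Φ ω p0 p1 : ℝ → ℝ}

theorem hasDerivAt_It (h : Setup κ K B Φ ω p0 p1) (n : ℕ) :
    ∀ t y, HasDerivAt (fun y => It κ Φ p0 n t y) (Dt κ Φ ω p0 p1 n t y) y := by
  induction n with
  | zero => intro t y; exact h.hp y
  | succ n ih =>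
    intro t y
    have h1 : HasDerivAt (fun y => ∫ s in (0 : ℝ)..t,
        Φ (It κ Φ p0 n s y - It κ Φ p0 n s (2 * s - y)))
        (∫ s in (0 : ℝ)..t, ω (It κ Φ p0 n s y - It κ Φ p0 n s (2 * s - y)) *
        (Dt κ Φ ω p0 p1 n s y + Dt κ Φ ω p0 p1 n s (2 * s - y))) y := by
      apply hasDerivAt_param_integral
        (F := fun y s => Φ (It κ Φ p0 n s y - It κ Φ p0 n s (2 * s - y)))
        (F' := fun y s => ω (It κ Φ p0 n s y - It κ Φ p0 n s (2 * s - y)) *
        (Dt κ Φ ω p0 p1 n s y + Dt κ Φ ω p0 p1 n s (2 * s - y)))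
      · apply Continuous.mul
        · apply h.hω.continuous.comp
          apply Continuous.sub
          · exact h.cIt' n (by fun_prop) (by fun_prop)
          · exact h.cIt' n (by fun_prop) (by fun_prop)
        · apply Continuous.add
          · exact h.cDt' n (by fun_prop) (by fun_prop)
          · exact h.cDt' n (by fun_prop) (by fun_prop)
      · intro y
        apply h.cΦ.comp
        apply Continuous.sub
        · exact h.cIt' n (by fun_prop) (by fun_prop)
        · exact h.cIt' n (by fun_prop) (by fun_prop)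
      · intro y s
        have a1 := ih s y
        have a2 : HasDerivAt (fun y => It κ Φ p0 n s (2 * s - y))
            (-Dt κ Φ ω p0 p1 n s (2 * s - y)) y := by
          have b1 : HasDerivAt (fun y : ℝ => 2 * s - y) (-1) y := by
            simpa using (hasDerivAt_id y).const_sub (2 * s)
          have b2 := (ih s (2 * s - y)).comp y b1
          rw [mul_neg_one] at b2
          exact b2
        have a3 := (h.hΦ (It κ Φ p0 n s y - It κ Φ p0 n s (2 * s - y))).comp y (a1.sub a2)
        rw [sub_neg_eq_add] at a3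
        exact a3
    exact (h.hp y).sub (h1.const_mul κ)

theorem diff_It (h : Setup κ K B Φ ω p0 p1) (n : ℕ) : ∀ t y,
    |It κ Φ p0 (n + 1) t y - It κ Φ p0 n t y| ≤
      (κ * (|Φ 0| + 2 * K * B) / (4 * κ * K)) / 2 ^ n * Real.exp (4 * κ * K * |t|) := by
  have hκ := h.kpos
  have hK := h.Kpos
  have hB := h.Bnn
  have hl : 0 < 4 * κ * K := by positivity
  induction n with
  | zero =>
    intro t y
    have e1 : It κ Φ p0 (0 + 1) t y - It κ Φ p0 0 t y =
        -(κ * ∫ s in (0 : ℝ)..t, Φ (p0 y - p0 (2 * s - y))) := by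
      simp only [It]; ring
    rw [e1, abs_neg, abs_mul, abs_of_pos hκ]
    have e2 : |∫ s in (0 : ℝ)..t, Φ (p0 y - p0 (2 * s - y))| ≤
        (|Φ 0| + 2 * K * B) / (4 * κ * K) * Real.exp (4 * κ * K * |t|) := by
      apply abs_integral_le_exp (by positivity) hl le_rfl
      intro s _
      have b1 := h.lip 0 (p0 y - p0 (2 * s - y))
      have b2 := abs_le.mp (h.hp0B y)
      have b3 := abs_le.mp (h.hp0B (2 * s - y))
      have b4 : |p0 y - p0 (2 * s - y) - 0| ≤ 2 * B := by
        rw [abs_le]; constructor <;> linarith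
      have b5 : |Φ (p0 y - p0 (2 * s - y))| ≤ |Φ 0| + 2 * K * B := by
        have c1 := abs_sub_abs_le_abs_sub (Φ (p0 y - p0 (2 * s - y))) (Φ 0)
        have c2 := mul_le_mul_of_nonneg_left b4 hK.le
        linarith
      have b6 : 1 ≤ Real.exp (4 * κ * K * |s|) := Real.one_le_exp (by positivity)
      have b7 : 0 ≤ |Φ 0| + 2 * K * B := by positivity
      nlinarith
    have e3 := mul_le_mul_of_nonneg_left e2 hκ.le
    rw [pow_zero, div_one]
    refine e3.trans (le_of_eq ?_)
    ring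
  | succ n ih =>
    intro t y
    set C : ℝ := κ * (|Φ 0| + 2 * K * B) / (4 * κ * K) with hC
    have hC0 : 0 ≤ C := by positivity
    have c1 : Continuous (fun s => Φ (It κ Φ p0 (n + 1) s y - It κ Φ p0 (n + 1) s (2 * s - y))) := by
      apply h.cΦ.comp
      exact (h.cIt' (n + 1) (by fun_prop) (by fun_prop)).sub
        (h.cIt' (n + 1) (by fun_prop) (by fun_prop))
    have c2 : Continuous (fun s => Φ (It κ Φ p0 n s y - It κ Φ p0 n s (2 * s - y))) := by
      apply h.cΦ.comp
      exact (h.cIt' n (by fun_prop) (by fun_prop)).sub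
        (h.cIt' n (by fun_prop) (by fun_prop))
    have e1 : It κ Φ p0 (n + 1 + 1) t y - It κ Φ p0 (n + 1) t y =
        -(κ * ∫ s in (0 : ℝ)..t, (Φ (It κ Φ p0 (n + 1) s y - It κ Φ p0 (n + 1) s (2 * s - y)) -
          Φ (It κ Φ p0 n s y - It κ Φ p0 n s (2 * s - y)))) := by
      rw [intervalIntegral.integral_sub (c1.intervalIntegrable _ _) (c2.intervalIntegrable _ _)]
      rw [show It κ Φ p0 (n + 1 + 1) t y = p0 y - κ * ∫ s in (0 : ℝ)..t,
        Φ (It κ Φ p0 (n + 1) s y - It κ Φ p0 (n + 1) s (2 * s - y)) from rfl,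
        show It κ Φ p0 (n + 1) t y = p0 y - κ * ∫ s in (0 : ℝ)..t,
        Φ (It κ Φ p0 n s y - It κ Φ p0 n s (2 * s - y)) from rfl]
      ring
    rw [e1, abs_neg, abs_mul, abs_of_pos hκ]
    have e2 : |∫ s in (0 : ℝ)..t, (Φ (It κ Φ p0 (n + 1) s y - It κ Φ p0 (n + 1) s (2 * s - y)) -
          Φ (It κ Φ p0 n s y - It κ Φ p0 n s (2 * s - y)))| ≤
        (2 * K * (C / 2 ^ n)) / (4 * κ * K) * Real.exp (4 * κ * K * |t|) := by
      apply abs_integral_le_exp (by positivity) hl le_rfl
      intro s _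
      have b1 := h.lip (It κ Φ p0 n s y - It κ Φ p0 n s (2 * s - y))
        (It κ Φ p0 (n + 1) s y - It κ Φ p0 (n + 1) s (2 * s - y))
      have b2 := ih s y
      have b3 := ih s (2 * s - y)
      have b4 : |It κ Φ p0 (n + 1) s y - It κ Φ p0 (n + 1) s (2 * s - y) -
          (It κ Φ p0 n s y - It κ Φ p0 n s (2 * s - y))| ≤
          2 * (C / 2 ^ n * Real.exp (4 * κ * K * |s|)) := by
        have d1 : It κ Φ p0 (n + 1) s y - It κ Φ p0 (n + 1) s (2 * s - y) -
          (It κ Φ p0 n s y - It κ Φ p0 n s (2 * s - y)) =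
          (It κ Φ p0 (n + 1) s y - It κ Φ p0 n s y) -
          (It κ Φ p0 (n + 1) s (2 * s - y) - It κ Φ p0 n s (2 * s - y)) := by ring
        rw [d1]
        refine (abs_sub _ _).trans ?_
        linarith
      have b5 := mul_le_mul_of_nonneg_left b4 hK.le
      refine (b1.trans b5).trans (le_of_eq ?_)
      ring
    have e3 := mul_le_mul_of_nonneg_left e2 hκ.le
    refine e3.trans (le_of_eq ?_)
    rw [pow_succ]
    field_simp
    ring

/-- The limit of the iterates. -/
theorem exists_lim (h : Setup κ K B Φ ω p0 p1) : ∃ (C : ℝ) (P : ℝ → ℝ → ℝ), 0 ≤ C ∧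
    ∀ n t y, |It κ Φ p0 n t y - P t y| ≤ C / 2 ^ n * Real.exp (4 * κ * K * |t|) := by
  have hκ := h.kpos
  have hK := h.Kpos
  have hB := h.Bnn
  set C : ℝ := κ * (|Φ 0| + 2 * K * B) / (4 * κ * K) with hC
  have hC0 : 0 ≤ C := by positivity
  have hd : ∀ t y n, dist (It κ Φ p0 n t y) (It κ Φ p0 (n + 1) t y) ≤
      (2 * C * Real.exp (4 * κ * K * |t|)) / 2 / 2 ^ n := by
    intro t y n
    rw [dist_comm, Real.dist_eq]
    refine (h.diff_It n t y).trans (le_of_eq ?_)
    rw [← hC]
    ring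
  have hlim : ∀ t y, ∃ a, Tendsto (fun n => It κ Φ p0 n t y) atTop (𝓝 a) := fun t y =>
    cauchySeq_tendsto_of_complete (cauchySeq_of_le_geometric_two (hd t y))
  choose P hP using hlim
  refine ⟨2 * C, P, by positivity, ?_⟩
  intro n t y
  have := dist_le_of_le_geometric_two_of_tendsto (hd t y) (hP t y) n
  rw [Real.dist_eq] at this
  refine this.trans (le_of_eq ?_)
  ring

theorem Dt_bound (h : Setup κ K B Φ ω p0 p1) (n : ℕ) : ∀ t y,
    |Dt κ Φ ω p0 p1 n t y| ≤ 2 * B * Real.exp (4 * κ * K * |t|) := by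
  have hκ := h.kpos
  have hK := h.Kpos
  have hB := h.Bnn
  have hl : 0 < 4 * κ * K := by positivity
  induction n with
  | zero =>
    intro t y
    have b6 : 1 ≤ Real.exp (4 * κ * K * |t|) := Real.one_le_exp (by positivity)
    have b1 := h.hp1B y
    have e1 : Dt κ Φ ω p0 p1 0 t y = p1 y := rfl
    rw [e1]
    nlinarith
  | succ n ih =>
    intro t y
    have e1 : Dt κ Φ ω p0 p1 (n + 1) t y = p1 y - κ * ∫ s in (0 : ℝ)..t,
      ω (It κ Φ p0 n s y - It κ Φ p0 n s (2 * s - y)) *
        (Dt κ Φ ω p0 p1 n s y + Dt κ Φ ω p0 p1 n s (2 * s - y)) := rfl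
    have e2 : |∫ s in (0 : ℝ)..t, ω (It κ Φ p0 n s y - It κ Φ p0 n s (2 * s - y)) *
        (Dt κ Φ ω p0 p1 n s y + Dt κ Φ ω p0 p1 n s (2 * s - y))| ≤
        (4 * K * B) / (4 * κ * K) * Real.exp (4 * κ * K * |t|) := by
      apply abs_integral_le_exp (by positivity) hl le_rfl
      intro s _
      rw [abs_mul]
      have b2 := ih s y
      have b3 := ih s (2 * s - y)
      have b4 : |Dt κ Φ ω p0 p1 n s y + Dt κ Φ ω p0 p1 n s (2 * s - y)| ≤
          4 * B * Real.exp (4 * κ * K * |s|) := (abs_add_le _ _).trans (by linarith)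
      calc _ ≤ K * (4 * B * Real.exp (4 * κ * K * |s|)) :=
            mul_le_mul (h.hωK _) b4 (abs_nonneg _) hK.le
        _ = _ := by ring
    have e3 := mul_le_mul_of_nonneg_left e2 hκ.le
    have e4 : κ * (4 * K * B / (4 * κ * K) * Real.exp (4 * κ * K * |t|)) =
        B * Real.exp (4 * κ * K * |t|) := by field_simp
    rw [e4] at e3
    have b6 : 1 ≤ Real.exp (4 * κ * K * |t|) := Real.one_le_exp (by positivity)
    have b1 := h.hp1B y
    rw [e1]
    refine (abs_sub _ _).trans ?_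
    rw [abs_mul, abs_of_pos hκ]
    nlinarith

theorem P_cont (h : Setup κ K B Φ ω p0 p1) {C : ℝ} {P : ℝ → ℝ → ℝ} (hC : 0 ≤ C)
    (hP : ∀ n t y, |It κ Φ p0 n t y - P t y| ≤ C / 2 ^ n * Real.exp (4 * κ * K * |t|)) :
    Continuous (fun z : ℝ × ℝ => P z.1 z.2) := by
  have hκ := h.kpos
  have hK := h.Kpos
  apply TendstoLocallyUniformly.continuous
    (F := fun n (z : ℝ × ℝ) => It κ Φ p0 n z.1 z.2) (p := atTop)
  · apply tendstoLocallyUniformly_of_le
    intro T hT ε hε
    obtain ⟨N, hN⟩ := exists_nat_gt (C * Real.exp (4 * κ * K * T) / ε)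
    refine ⟨N, fun n hn z hz => ?_⟩
    refine lt_of_le_of_lt (hP n z.1 z.2) ?_
    have h1 : Real.exp (4 * κ * K * |z.1|) ≤ Real.exp (4 * κ * K * T) := by
      apply Real.exp_le_exp.mpr
      exact mul_le_mul_of_nonneg_left hz (by positivity)
    have h2 : (N : ℝ) < 2 ^ n := by
      have a1 : N < 2 ^ n := lt_of_le_of_lt hn Nat.lt_two_pow_self
      exact_mod_cast a1
    rw [div_lt_iff₀ hε] at hN
    have h3 : (0 : ℝ) < 2 ^ n := by positivity
    rw [div_mul_eq_mul_div, div_lt_iff₀ h3]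
    have h4 := mul_le_mul_of_nonneg_left h1 hC
    nlinarith
  · exact Frequently.of_forall (fun n => h.cIt n)

end Setup

end Pool.Agent.Helper39_Wave
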