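import Pool.Agent.Helper39_Wave.Exist2

/-!
Convergence of the derivatives of the iterates, and the `C¹` solution.
-/

set_option autoImplicit false

open Real Filter Topology Set MeasureTheory

namespace Pool.Agent.Helper39_Wave

namespace Setup

variable {κ K B : ℝ} {Φ ω p0 p1 : ℝ → ℝ}

theorem omega_close (h : Setup κ K B Φ ω p0 p1) {T η : ℝ} (hη : 0 < η) :
    ∃ N : ℕ, ∀ n m : ℕ, N ≤ n → N ≤ m → ∀ s, |s| ≤ T → ∀ y,
      |ω (It κ Φ p0 n s y - It κ Φ p0 n s (2 * s - y)) -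
        ω (It κ Φ p0 m s y - It κ Φ p0 m s (2 * s - y))| ≤ η := by
  have hκ := h.kpos
  have hK := h.Kpos
  obtain ⟨C, P, hC, hP⟩ := h.exists_lim
  obtain ⟨δ, hδ, hδ'⟩ := Metric.uniformContinuous_iff.mp h.hω η hη
  set E : ℝ := Real.exp (4 * κ * K * T) with hE
  obtain ⟨N, hN⟩ := exists_nat_gt (4 * C * E / δ)
  refine ⟨N, fun n m hn hm s hs y => ?_⟩
  have hbd : ∀ n : ℕ, N ≤ n → ∀ y, |It κ Φ p0 n s y - P s y| < δ / 4 := by
    intro n hn y
    refine lt_of_le_of_lt (hP n s y) ?_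
    have h1 : Real.exp (4 * κ * K * |s|) ≤ E := by
      apply Real.exp_le_exp.mpr
      exact mul_le_mul_of_nonneg_left hs (by positivity)
    have h2 : (N : ℝ) < 2 ^ n := by
      have a1 : N < 2 ^ n := lt_of_le_of_lt hn Nat.lt_two_pow_self
      exact_mod_cast a1
    rw [div_lt_iff₀ hδ] at hN
    have h3 : (0 : ℝ) < 2 ^ n := by positivity
    rw [div_mul_eq_mul_div, div_lt_iff₀ h3]
    have h4 := mul_le_mul_of_nonneg_left h1 hC
    nlinarith
  apply le_of_lt
  have key := hδ' (a := It κ Φ p0 n s y - It κ Φ p0 n s (2 * s - y))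
    (b := It κ Φ p0 m s y - It κ Φ p0 m s (2 * s - y)) (by
      rw [Real.dist_eq]
      have b1 := abs_lt.mp (hbd n hn y)
      have b2 := abs_lt.mp (hbd n hn (2 * s - y))
      have b3 := abs_lt.mp (hbd m hm y)
      have b4 := abs_lt.mp (hbd m hm (2 * s - y))
      rw [abs_lt]
      constructor <;> linarith [b1.1, b1.2, b2.1, b2.2, b3.1, b3.2, b4.1, b4.2])
  rw [Real.dist_eq] at key
  exact key

theorem Dt_close (h : Setup κ K B Φ ω p0 p1) {T η : ℝ} (hη : 0 < η) {N : ℕ}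
    (hN : ∀ n m : ℕ, N ≤ n → N ≤ m → ∀ s, |s| ≤ T → ∀ y,
      |ω (It κ Φ p0 n s y - It κ Φ p0 n s (2 * s - y)) -
        ω (It κ Φ p0 m s y - It κ Φ p0 m s (2 * s - y))| ≤ η) (k : ℕ) :
    ∀ n m : ℕ, N + k ≤ n → N + k ≤ m → ∀ t, |t| ≤ T → ∀ y,
      |Dt κ Φ ω p0 p1 n t y - Dt κ Φ ω p0 p1 m t y| ≤
        (4 * B / 2 ^ k + 2 * B * η / K) * Real.exp (4 * κ * K * |t|) := by
  have hκ := h.kpos
  have hK := h.Kpos
  have hB := h.Bnn
  have hl : 0 < 4 * κ * K := by positivity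
  induction k with
  | zero =>
    intro n m _ _ t _ y
    have b1 := h.Dt_bound n t y
    have b2 := h.Dt_bound m t y
    have b3 : 0 ≤ 2 * B * η / K * Real.exp (4 * κ * K * |t|) := by positivity
    refine (abs_sub _ _).trans ?_
    rw [pow_zero, div_one]
    linarith
  | succ k ih =>
    intro n m hn hm t ht y
    obtain ⟨n', rfl⟩ : ∃ n', n = n' + 1 := ⟨n - 1, by omega⟩
    obtain ⟨m', rfl⟩ : ∃ m', m = m' + 1 := ⟨m - 1, by omega⟩
    have hn' : N + k ≤ n' := by omega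
    have hm' : N + k ≤ m' := by omega
    have cI : ∀ n, Continuous (fun s => ω (It κ Φ p0 n s y - It κ Φ p0 n s (2 * s - y)) *
        (Dt κ Φ ω p0 p1 n s y + Dt κ Φ ω p0 p1 n s (2 * s - y))) := by
      intro n
      apply Continuous.mul
      · apply h.hω.continuous.comp
        exact (h.cIt' n (by fun_prop) (by fun_prop)).sub (h.cIt' n (by fun_prop) (by fun_prop))
      · exact (h.cDt' n (by fun_prop) (by fun_prop)).add (h.cDt' n (by fun_prop) (by fun_prop))
    have e1 : Dt κ Φ ω p0 p1 (n' + 1) t y - Dt κ Φ ω p0 p1 (m' + 1) t y =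
        -(κ * ∫ s in (0 : ℝ)..t,
          (ω (It κ Φ p0 n' s y - It κ Φ p0 n' s (2 * s - y)) *
        (Dt κ Φ ω p0 p1 n' s y + Dt κ Φ ω p0 p1 n' s (2 * s - y)) -
          ω (It κ Φ p0 m' s y - It κ Φ p0 m' s (2 * s - y)) *
        (Dt κ Φ ω p0 p1 m' s y + Dt κ Φ ω p0 p1 m' s (2 * s - y)))) := by
      rw [intervalIntegral.integral_sub ((cI n').intervalIntegrable _ _)
        ((cI m').intervalIntegrable _ _)]
      rw [show Dt κ Φ ω p0 p1 (n' + 1) t y = p1 y - κ * ∫ s in (0 : ℝ)..t,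
        ω (It κ Φ p0 n' s y - It κ Φ p0 n' s (2 * s - y)) *
        (Dt κ Φ ω p0 p1 n' s y + Dt κ Φ ω p0 p1 n' s (2 * s - y)) from rfl,
        show Dt κ Φ ω p0 p1 (m' + 1) t y = p1 y - κ * ∫ s in (0 : ℝ)..t,
        ω (It κ Φ p0 m' s y - It κ Φ p0 m' s (2 * s - y)) *
        (Dt κ Φ ω p0 p1 m' s y + Dt κ Φ ω p0 p1 m' s (2 * s - y)) from rfl]
      ring
    rw [e1, abs_neg, abs_mul, abs_of_pos hκ]
    set X : ℝ := 4 * B / 2 ^ k + 2 * B * η / K with hX
    have hX0 : 0 ≤ X := by positivity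
    have e2 : |∫ s in (0 : ℝ)..t,
          (ω (It κ Φ p0 n' s y - It κ Φ p0 n' s (2 * s - y)) *
        (Dt κ Φ ω p0 p1 n' s y + Dt κ Φ ω p0 p1 n' s (2 * s - y)) -
          ω (It κ Φ p0 m' s y - It κ Φ p0 m' s (2 * s - y)) *
        (Dt κ Φ ω p0 p1 m' s y + Dt κ Φ ω p0 p1 m' s (2 * s - y)))| ≤
        (4 * B * η + 2 * K * X) / (4 * κ * K) * Real.exp (4 * κ * K * |t|) := by
      apply abs_integral_le_exp (by positivity) hl ht
      intro s hs
      set w1 := ω (It κ Φ p0 n' s y - It κ Φ p0 n' s (2 * s - y)) with hw1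
      set w2 := ω (It κ Φ p0 m' s y - It κ Φ p0 m' s (2 * s - y)) with hw2
      set d1 := Dt κ Φ ω p0 p1 n' s y with hd1
      set d2 := Dt κ Φ ω p0 p1 n' s (2 * s - y) with hd2
      set d3 := Dt κ Φ ω p0 p1 m' s y with hd3
      set d4 := Dt κ Φ ω p0 p1 m' s (2 * s - y) with hd4
      set ex := Real.exp (4 * κ * K * |s|) with hex
      have b1 : |w1 - w2| ≤ η := hN n' m' (by omega) (by omega) s hs y
      have b2 : |w2| ≤ K := h.hωK _
      have b3 : |d1| ≤ 2 * B * ex := h.Dt_bound n' s y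
      have b4 : |d2| ≤ 2 * B * ex := h.Dt_bound n' s (2 * s - y)
      have b5 : |d1 - d3| ≤ X * ex := ih n' m' hn' hm' s hs y
      have b6 : |d2 - d4| ≤ X * ex := ih n' m' hn' hm' s hs (2 * s - y)
      have e3 : w1 * (d1 + d2) - w2 * (d3 + d4) =
          (w1 - w2) * (d1 + d2) + w2 * ((d1 - d3) + (d2 - d4)) := by ring
      rw [e3]
      have b7 : |d1 + d2| ≤ 4 * B * ex := (abs_add_le _ _).trans (by linarith)
      have b8 : |(d1 - d3) + (d2 - d4)| ≤ 2 * X * ex := (abs_add_le _ _).trans (by linarith)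
      calc _ ≤ |(w1 - w2) * (d1 + d2)| + |w2 * ((d1 - d3) + (d2 - d4))| := abs_add_le _ _
        _ = |w1 - w2| * |d1 + d2| + |w2| * |(d1 - d3) + (d2 - d4)| := by rw [abs_mul, abs_mul]
        _ ≤ η * (4 * B * ex) + K * (2 * X * ex) :=
            add_le_add (mul_le_mul b1 b7 (abs_nonneg _) hη.le)
              (mul_le_mul b2 b8 (abs_nonneg _) hK.le)
        _ = _ := by ring
    have e3 := mul_le_mul_of_nonneg_left e2 hκ.le
    refine e3.trans (le_of_eq ?_)
    rw [hX, pow_succ]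
    field_simp
    ring

theorem Dt_cauchy (h : Setup κ K B Φ ω p0 p1) {T ε : ℝ} (hε : 0 < ε) :
    ∃ N : ℕ, ∀ n m : ℕ, N ≤ n → N ≤ m → ∀ t, |t| ≤ T → ∀ y,
      |Dt κ Φ ω p0 p1 n t y - Dt κ Φ ω p0 p1 m t y| ≤ ε := by
  have hκ := h.kpos
  have hK := h.Kpos
  have hB := h.Bnn
  set E : ℝ := Real.exp (4 * κ * K * T) with hE
  have hE0 : 0 < E := Real.exp_pos _
  set η : ℝ := ε * K / (4 * (B + 1) * E) with hη
  have hη0 : 0 < η := by positivity
  obtain ⟨N, hN⟩ := h.omega_close (T := T) hη0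
  obtain ⟨k, hk⟩ := exists_nat_gt (8 * B * E / ε)
  refine ⟨N + k, fun n m hn hm t ht y => ?_⟩
  refine (h.Dt_close hη0 hN k n m hn hm t ht y).trans ?_
  have h1 : Real.exp (4 * κ * K * |t|) ≤ E := by
    apply Real.exp_le_exp.mpr
    exact mul_le_mul_of_nonneg_left ht (by positivity)
  have h2 : (4 * B / 2 ^ k + 2 * B * η / K) * Real.exp (4 * κ * K * |t|) ≤
      (4 * B / 2 ^ k + 2 * B * η / K) * E := mul_le_mul_of_nonneg_left h1 (by positivity)
  refine h2.trans ?_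
  have h3 : 4 * B / 2 ^ k * E ≤ ε / 2 := by
    rw [div_lt_iff₀ hε] at hk
    have a1 : (k : ℝ) < 2 ^ k := by exact_mod_cast Nat.lt_two_pow_self (n := k)
    have a2 : (0 : ℝ) < 2 ^ k := by positivity
    rw [div_mul_eq_mul_div, div_le_iff₀ a2]
    nlinarith
  have h4 : 2 * B * η / K * E ≤ ε / 2 := by
    rw [hη]
    have a1 : 2 * B * (ε * K / (4 * (B + 1) * E)) / K * E = ε / 2 * (B / (B + 1)) := by
      field_simp
      ring
    rw [a1]
    have a2 : B / (B + 1) ≤ 1 := by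
      rw [div_le_one (by linarith)]; linarith
    have a3 := mul_le_mul_of_nonneg_left a2 (by positivity : 0 ≤ ε / 2)
    linarith
  linarith

theorem exists_D (h : Setup κ K B Φ ω p0 p1) : ∃ D : ℝ → ℝ → ℝ,
    ∀ T : ℝ, 0 ≤ T → ∀ ε : ℝ, 0 < ε → ∃ N : ℕ, ∀ n, N ≤ n → ∀ z : ℝ × ℝ, |z.1| ≤ T →
      |Dt κ Φ ω p0 p1 n z.1 z.2 - D z.1 z.2| < ε := by
  have hlim : ∀ t y, ∃ a, Tendsto (fun n => Dt κ Φ ω p0 p1 n t y) atTop (𝓝 a) := by
    intro t y
    apply cauchySeq_tendsto_of_complete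
    rw [Metric.cauchySeq_iff]
    intro ε hε
    obtain ⟨N, hN⟩ := h.Dt_cauchy (T := |t|) (half_pos hε)
    refine ⟨N, fun n hn m hm => ?_⟩
    rw [Real.dist_eq]
    have := hN n m hn hm t le_rfl y
    linarith
  choose D hD using hlim
  refine ⟨D, ?_⟩
  intro T _ ε hε
  obtain ⟨N, hN⟩ := h.Dt_cauchy (T := T) (half_pos hε)
  refine ⟨N, fun n hn z hz => ?_⟩
  have h1 : |Dt κ Φ ω p0 p1 n z.1 z.2 - D z.1 z.2| ≤ ε / 2 := by
    have h2 : Tendsto (fun m => |Dt κ Φ ω p0 p1 n z.1 z.2 - Dt κ Φ ω p0 p1 m z.1 z.2|) atTop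
        (𝓝 |Dt κ Φ ω p0 p1 n z.1 z.2 - D z.1 z.2|) :=
      (tendsto_const_nhds.sub (hD z.1 z.2)).abs
    apply le_of_tendsto h2
    filter_upwards [eventually_ge_atTop N] with m hm
    exact hN n m hn hm z.1 hz z.2
  linarith

/-- The `C¹` solution of the truncated equation. -/
theorem exists_sol (h : Setup κ K B Φ ω p0 p1) : ∃ P D : ℝ → ℝ → ℝ,
    Continuous (fun z : ℝ × ℝ => P z.1 z.2) ∧ Continuous (fun z : ℝ × ℝ => D z.1 z.2) ∧
    (∀ t y, HasDerivAt (fun y => P t y) (D t y) y) ∧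
    (∀ t y, P t y = p0 y - κ * ∫ s in (0 : ℝ)..t, Φ (P s y - P s (2 * s - y))) ∧
    (∀ t y, Tendsto (fun n => It κ Φ p0 n t y) atTop (𝓝 (P t y))) := by
  have hκ := h.kpos
  have hK := h.Kpos
  have hl : 0 < 4 * κ * K := by positivity
  obtain ⟨C, P, hC, hP⟩ := h.exists_lim
  obtain ⟨D, hD⟩ := h.exists_D
  have cP := h.P_cont hC hP
  have hzero : Tendsto (fun n : ℕ => (1 : ℝ) / 2 ^ n) atTop (𝓝 0) := by
    have := tendsto_pow_atTop_nhds_zero_of_lt_one (r := (1 / 2 : ℝ)) (by norm_num) (by norm_num)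
    simpa [one_div, inv_pow] using this
  have hPt : ∀ t y, Tendsto (fun n => It κ Φ p0 n t y) atTop (𝓝 (P t y)) := by
    intro t y
    rw [tendsto_iff_dist_tendsto_zero]
    have h0 : ∀ n, dist (It κ Φ p0 n t y) (P t y) ≤
        C / 2 ^ n * Real.exp (4 * κ * K * |t|) := fun n => by
      rw [Real.dist_eq]; exact hP n t y
    refine squeeze_zero (fun _ => dist_nonneg) h0 ?_
    have h1 := hzero.const_mul (C * Real.exp (4 * κ * K * |t|))
    rw [mul_zero] at h1
    refine h1.congr (fun n => ?_)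
    ring
  refine ⟨P, D, cP, ?_, ?_, ?_, hPt⟩
  · apply TendstoLocallyUniformly.continuous
      (F := fun n (z : ℝ × ℝ) => Dt κ Φ ω p0 p1 n z.1 z.2) (p := atTop)
    · exact tendstoLocallyUniformly_of_le hD
    · exact Frequently.of_forall (fun n => h.cDt n)
  · intro t y
    apply hasDerivAt_of_tendstoUniformly (l := atTop)
      (f := fun n y => It κ Φ p0 n t y) (f' := fun n y => Dt κ Φ ω p0 p1 n t y)
      (g := fun y => P t y) (g' := fun y => D t y)
    · rw [Metric.tendstoUniformly_iff]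
      intro ε hε
      obtain ⟨N, hN⟩ := hD |t| (abs_nonneg t) ε hε
      filter_upwards [eventually_ge_atTop N] with n hn x
      rw [dist_comm, Real.dist_eq]
      exact hN n hn (t, x) le_rfl
    · exact Eventually.of_forall (fun n x => h.hasDerivAt_It n t x)
    · intro x
      exact hPt t x
  · intro t y
    have h1 : Tendsto (fun n => It κ Φ p0 (n + 1) t y) atTop (𝓝 (P t y)) :=
      (hPt t y).comp (tendsto_add_atTop_nat 1)
    have c1 : Continuous (fun s => Φ (P s y - P s (2 * s - y))) := by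
      apply h.cΦ.comp
      apply Continuous.sub
      · exact cP.comp (by fun_prop : Continuous fun s : ℝ => (s, y))
      · exact cP.comp (by fun_prop : Continuous fun s : ℝ => (s, 2 * s - y))
    have c2 : ∀ n, Continuous (fun s => Φ (It κ Φ p0 n s y - It κ Φ p0 n s (2 * s - y))) := by
      intro n
      apply h.cΦ.comp
      exact (h.cIt' n (by fun_prop) (by fun_prop)).sub (h.cIt' n (by fun_prop) (by fun_prop))
    have h2 : Tendsto (fun n => ∫ s in (0 : ℝ)..t,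
        Φ (It κ Φ p0 n s y - It κ Φ p0 n s (2 * s - y))) atTop
        (𝓝 (∫ s in (0 : ℝ)..t, Φ (P s y - P s (2 * s - y)))) := by
      rw [tendsto_iff_dist_tendsto_zero]
      have h3 : ∀ n : ℕ, dist (∫ s in (0 : ℝ)..t,
          Φ (It κ Φ p0 n s y - It κ Φ p0 n s (2 * s - y)))
          (∫ s in (0 : ℝ)..t, Φ (P s y - P s (2 * s - y))) ≤
          (2 * K * (C / 2 ^ n)) / (4 * κ * K) * Real.exp (4 * κ * K * |t|) := by
        intro n
        rw [Real.dist_eq, ← intervalIntegral.integral_sub ((c2 n).intervalIntegrable _ _)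
          (c1.intervalIntegrable _ _)]
        apply abs_integral_le_exp (by positivity) hl le_rfl
        intro s _
        have b1 := h.lip (P s y - P s (2 * s - y))
          (It κ Φ p0 n s y - It κ Φ p0 n s (2 * s - y))
        have b2 := hP n s y
        have b3 := hP n s (2 * s - y)
        have b4 : |It κ Φ p0 n s y - It κ Φ p0 n s (2 * s - y) -
            (P s y - P s (2 * s - y))| ≤ 2 * (C / 2 ^ n * Real.exp (4 * κ * K * |s|)) := by
          have d1 : It κ Φ p0 n s y - It κ Φ p0 n s (2 * s - y) -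
            (P s y - P s (2 * s - y)) =
            (It κ Φ p0 n s y - P s y) - (It κ Φ p0 n s (2 * s - y) - P s (2 * s - y)) := by ring
          rw [d1]
          refine (abs_sub _ _).trans ?_
          linarith
        have b5 := mul_le_mul_of_nonneg_left b4 hK.le
        refine (b1.trans b5).trans (le_of_eq ?_)
        ring
      refine squeeze_zero (fun _ => dist_nonneg) h3 ?_
      have h1 := hzero.const_mul ((2 * K * C) / (4 * κ * K) * Real.exp (4 * κ * K * |t|))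
      rw [mul_zero] at h1
      refine h1.congr (fun n => ?_)
      ring
    have h3 : Tendsto (fun n => It κ Φ p0 (n + 1) t y) atTop
        (𝓝 (p0 y - κ * ∫ s in (0 : ℝ)..t, Φ (P s y - P s (2 * s - y)))) :=
      tendsto_const_nhds.sub (h2.const_mul κ)
    exact tendsto_nhds_unique h1 h3

end Setup

end Pool.Agent.Helper39_Wave
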