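import Mathlib

/-!
The odd power `φ(s) = |s|^α s`.
-/

set_option autoImplicit false

open Real Filter Topology

namespace Pool.Agent.Helper39_Wave

/-- `φ(s) = |s|^α s`. -/
noncomputable def phi (α s : ℝ) : ℝ := |s| ^ α * s

variable {α : ℝ}

theorem phi_neg (α s : ℝ) : phi α (-s) = -phi α s := by
  unfold phi; rw [abs_neg]; ring

theorem phi_zero (α : ℝ) : phi α 0 = 0 := by
  unfold phi; simp

theorem phi_of_nonneg (hα : 0 < α) {s : ℝ} (hs : 0 ≤ s) : phi α s = s ^ (α + 1) := by
  unfold phi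
  rw [abs_of_nonneg hs]
  rcases hs.eq_or_lt with h | h
  · rw [← h, Real.zero_rpow (by linarith : α + 1 ≠ 0)]; simp
  · rw [Real.rpow_add_one h.ne']

theorem abs_phi (α s : ℝ) : |phi α s| = |s| ^ α * |s| := by
  unfold phi
  rw [abs_mul, abs_of_nonneg (Real.rpow_nonneg (abs_nonneg s) α)]

theorem abs_phi' (hα : 0 < α) (s : ℝ) : |phi α s| = |s| ^ (α + 1) := by
  rw [abs_phi]
  rcases (abs_nonneg s).eq_or_lt with h | h
  · rw [← h, Real.zero_rpow (by linarith : α + 1 ≠ 0)]; simp
  · rw [Real.rpow_add_one h.ne']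

theorem hasDerivAt_phi (hα : 0 < α) (s : ℝ) : HasDerivAt (phi α) ((α + 1) * |s| ^ α) s := by
  have pos : ∀ s : ℝ, 0 < s → HasDerivAt (phi α) ((α + 1) * |s| ^ α) s := by
    intro s hs
    have h1 : HasDerivAt (fun x : ℝ => x ^ (α + 1)) ((α + 1) * s ^ (α + 1 - 1)) s :=
      Real.hasDerivAt_rpow_const (Or.inl hs.ne')
    have h2 : (α + 1) * s ^ (α + 1 - 1) = (α + 1) * |s| ^ α := by
      rw [abs_of_pos hs]; congr 2; ring
    rw [h2] at h1
    refine h1.congr_of_eventuallyEq ?_
    filter_upwards [lt_mem_nhds hs] with x hx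
    exact phi_of_nonneg hα hx.le
  rcases lt_trichotomy s 0 with h | h | h
  · have h1 := pos (-s) (by linarith)
    have h2 : HasDerivAt (fun x : ℝ => -phi α (-x)) ((α + 1) * |s| ^ α) s := by
      have h3 := (h1.comp s (hasDerivAt_neg s)).neg
      have h5 : -((α + 1) * |(-s)| ^ α * -1) = (α + 1) * |s| ^ α := by rw [abs_neg]; ring
      rw [h5] at h3
      exact h3
    have h4 : (fun x : ℝ => -phi α (-x)) = phi α := by
      funext x; rw [phi_neg]; ring
    rwa [h4] at h2
  · subst h
    have h0 : (α + 1) * |(0 : ℝ)| ^ α = 0 := by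
      rw [abs_zero, Real.zero_rpow hα.ne']; ring
    rw [h0, hasDerivAt_iff_tendsto_slope_zero]
    have h1 : Tendsto (fun t : ℝ => |t| ^ α) (𝓝[≠] 0) (𝓝 0) := by
      have h2 : ContinuousAt (fun t : ℝ => |t| ^ α) 0 :=
        (continuous_abs.continuousAt).rpow_const (Or.inr hα.le)
      have h3 := h2.tendsto
      simp only [abs_zero, Real.zero_rpow hα.ne'] at h3
      exact h3.mono_left nhdsWithin_le_nhds
    refine h1.congr' ?_
    filter_upwards [self_mem_nhdsWithin] with t ht
    have ht' : t ≠ 0 := ht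
    rw [zero_add, phi_zero, sub_zero]
    unfold phi
    rw [smul_eq_mul]
    field_simp
  · exact pos s h

theorem continuous_phi (hα : 0 < α) : Continuous (phi α) :=
  continuous_iff_continuousAt.mpr fun s => (hasDerivAt_phi hα s).continuousAt

theorem monotone_phi (hα : 0 < α) : Monotone (phi α) := by
  apply monotone_of_deriv_nonneg
  · exact fun s => (hasDerivAt_phi hα s).differentiableAt
  · intro s
    rw [(hasDerivAt_phi hα s).deriv]
    have := Real.rpow_nonneg (abs_nonneg s) α
    positivity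

theorem phi_nonneg {s : ℝ} (hs : 0 ≤ s) : 0 ≤ phi α s := by
  unfold phi
  exact mul_nonneg (Real.rpow_nonneg (abs_nonneg s) α) hs

theorem mul_phi (hα : 0 < α) (s : ℝ) : s * phi α s = |s| ^ (α + 2) := by
  unfold phi
  rcases (abs_nonneg s).eq_or_lt with h | h
  · have : s = 0 := abs_eq_zero.mp h.symm
    subst this
    rw [abs_zero, Real.zero_rpow (by linarith : α + 2 ≠ 0)]; simp
  · rw [Real.rpow_add h, Real.rpow_two, sq_abs]; ring

theorem phi_sub_le (hα : 0 < α) {a b M : ℝ} (ha : |a| ≤ M) (hb : |b| ≤ M) :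
    |phi α b - phi α a| ≤ (α + 1) * M ^ α * |b - a| := by
  have hM : 0 ≤ M := (abs_nonneg a).trans ha
  have key := Convex.norm_image_sub_le_of_norm_hasDerivWithin_le (f := phi α)
    (f' := fun s => (α + 1) * |s| ^ α) (s := Set.Icc (-M) M) (x := a) (y := b)
    (C := (α + 1) * M ^ α)
    (fun x _ => (hasDerivAt_phi hα x).hasDerivWithinAt)
    (fun x hx => by
      have hx' : |x| ≤ M := abs_le.mpr ⟨hx.1, hx.2⟩
      rw [Real.norm_eq_abs, abs_of_nonneg (mul_nonneg (by linarith)
        (Real.rpow_nonneg (abs_nonneg x) α))]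
      apply mul_le_mul_of_nonneg_left _ (by linarith)
      exact Real.rpow_le_rpow (abs_nonneg x) hx' hα.le)
    (convex_Icc _ _) (abs_le.mp ha) (abs_le.mp hb)
  simpa [Real.norm_eq_abs] using key

theorem phi_sq_le (hα : 0 < α) {s M : ℝ} (hs : |s| ≤ M) :
    (phi α s) ^ 2 ≤ M ^ α * |s| ^ (α + 2) := by
  have h1 : (phi α s) ^ 2 = |s| ^ α * |s| ^ (α + 2) := by
    rw [← mul_phi hα]; unfold phi; ring
  rw [h1]
  exact mul_le_mul_of_nonneg_right (Real.rpow_le_rpow (abs_nonneg s) hs hα.le)
    (Real.rpow_nonneg (abs_nonneg s) _)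

/-- Convexity of `|s|^(α+2)`. -/
theorem abs_rpow_sub_le (hα : 0 < α) (a b : ℝ) :
    |b| ^ (α + 2) - |a| ^ (α + 2) ≤ (α + 2) * phi α b * (b - a) := by
  have hderiv : ∀ x : ℝ, HasDerivAt (fun x : ℝ => |x| ^ (α + 2)) ((α + 2) * phi α x) x := by
    intro x
    have h := hasDerivAt_abs_rpow x (p := α + 2) (by linarith)
    have h2 : (α + 2) * |x| ^ (α + 2 - 2) * x = (α + 2) * phi α x := by
      unfold phi
      rw [show α + 2 - 2 = α by ring]; ring
    rwa [h2] at h
  have hconv : ConvexOn ℝ Set.univ (fun x : ℝ => |x| ^ (α + 2)) := by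
    apply MonotoneOn.convexOn_of_deriv convex_univ
    · exact fun x _ => (hderiv x).continuousAt.continuousWithinAt
    · exact fun x _ => (hderiv x).differentiableAt.differentiableWithinAt
    · intro x _ y _ hxy
      rw [(hderiv x).deriv, (hderiv y).deriv]
      exact mul_le_mul_of_nonneg_left (monotone_phi hα hxy) (by linarith)
  rcases lt_trichotomy a b with h | h | h
  · have h1 := hconv.slope_le_of_hasDerivAt (Set.mem_univ a) (Set.mem_univ b) h (hderiv b)
    rw [slope_def_field, div_le_iff₀ (by linarith)] at h1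
    linarith
  · subst h; simp
  · have h1 := hconv.le_slope_of_hasDerivAt (Set.mem_univ b) (Set.mem_univ a) h (hderiv b)
    rw [slope_def_field, le_div_iff₀ (by linarith)] at h1
    linarith

/-- Tangent line inequality for `φ` on the positive half-line. -/
theorem phi_ge_tangent (hα : 0 < α) {w v : ℝ} (hw : 0 ≤ w) (hv : 0 ≤ v) :
    phi α v + (α + 1) * v ^ α * (w - v) ≤ phi α w := by
  rcases hv.eq_or_lt with h | h
  · rw [← h, phi_zero, Real.zero_rpow hα.ne']
    have := phi_nonneg (α := α) hw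
    simpa using this
  · rw [phi_of_nonneg hα hw, phi_of_nonneg hα hv]
    have h1 := one_add_mul_self_le_rpow_one_add (s := (w - v) / v) (p := α + 1)
      (by rw [le_div_iff₀ h]; linarith) (by linarith)
    have h2 : 1 + (w - v) / v = w / v := by field_simp; ring
    rw [h2, Real.div_rpow hw hv, le_div_iff₀ (Real.rpow_pos_of_pos h _)] at h1
    have h3 : v ^ (α + 1) = v ^ α * v := Real.rpow_add_one h.ne' α
    rw [h3] at h1 ⊢
    have h4 : (1 + (α + 1) * ((w - v) / v)) * (v ^ α * v) =
        v ^ α * v + (α + 1) * v ^ α * (w - v) := by field_simp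
    linarith

end Pool.Agent.Helper39_Wave
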