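import Pool.Agent.Helper39_Wave.Exist3

/-!
Truncated nonlinearity, maximum principle for it, and existence of a `CharSol` which is `C¹`.
-/

set_option autoImplicit false

open Real Filter Topology Set MeasureTheory

namespace Pool.Agent.Helper39_Wave

/-- Maximum principle for a general nonlinearity. -/
theorem max_principle {κ ℓ : ℝ} {Φ : ℝ → ℝ} {P : ℝ → ℝ → ℝ} (hκ : 0 < κ) (hℓ : 0 < ℓ)
    (hΦc : Continuous Φ) (hΦ0 : ∀ s, 0 ≤ s → 0 ≤ Φ s)
    (cont : Continuous (fun z : ℝ × ℝ => P z.1 z.2))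
    (per : ∀ t y, P t (y + 2 * ℓ) = P t y)
    (ode : ∀ t1 t2 y, 0 ≤ t1 → t1 ≤ t2 →
      P t2 y - P t1 y = -κ * ∫ s in t1..t2, Φ (P s y - P s (2 * s - y)))
    {t0 M : ℝ} (ht0 : 0 ≤ t0) (hM : ∀ y, P t0 y ≤ M) :
    ∀ t, t0 ≤ t → ∀ y, P t y ≤ M := by
  intro t1 ht1 y1
  by_contra hcon
  push Not at hcon
  have hlt : t0 < t1 := by
    rcases ht1.eq_or_lt with h1 | h1
    · subst h1; exact absurd (hM y1) (not_le.mpr hcon)
    · exact h1
  set ε : ℝ := (P t1 y1 - M) / (2 * (t1 - t0)) with hε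
  have hεpos : 0 < ε := div_pos (by linarith) (by linarith)
  have hε1 : ε * (t1 - t0) < P t1 y1 - M := by
    have h1 : ε * (t1 - t0) = (P t1 y1 - M) / 2 := by
      rw [hε]; field_simp [(by linarith : t1 - t0 ≠ 0)]
    rw [h1]; linarith
  have hl2 : 0 < 2 * ℓ := by linarith
  have hper : ∀ t, Function.Periodic (P t) (2 * ℓ) := fun t y => per t y
  obtain ⟨y1', hy1', hy1e⟩ := (hper t1).exists_mem_Ico₀ hl2 y1
  set K : Set (ℝ × ℝ) := Icc t0 t1 ×ˢ Icc 0 (2 * ℓ) with hK
  have hKc : IsCompact K := isCompact_Icc.prod isCompact_Icc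
  have hmem1 : ((t1, y1') : ℝ × ℝ) ∈ K := ⟨⟨hlt.le, le_rfl⟩, ⟨hy1'.1, hy1'.2.le⟩⟩
  have hcontQ : ContinuousOn (fun z : ℝ × ℝ => P z.1 z.2 - ε * (z.1 - t0)) K :=
    (cont.sub (by fun_prop)).continuousOn
  obtain ⟨⟨ts, ys⟩, hz, hmax⟩ := hKc.exists_isMaxOn ⟨_, hmem1⟩ hcontQ
  have hmax' : ∀ t y, t0 ≤ t → t ≤ t1 → P t y - ε * (t - t0) ≤ P ts ys - ε * (ts - t0) := by
    intro t y h1 h2
    obtain ⟨y', hy', hye⟩ := (hper t).exists_mem_Ico₀ hl2 y
    have := hmax (show ((t, y') : ℝ × ℝ) ∈ K from ⟨⟨h1, h2⟩, ⟨hy'.1, hy'.2.le⟩⟩)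
    rw [hye]
    exact this
  have hts : t0 ≤ ts ∧ ts ≤ t1 := hz.1
  have hgt : M < P ts ys - ε * (ts - t0) := by
    have := hmax' t1 y1 hlt.le le_rfl
    linarith
  have hts0 : t0 < ts := by
    rcases hts.1.eq_or_lt with h1 | h1
    · rw [← h1] at hgt
      have := hM ys
      linarith
    · exact h1
  have hD : 0 ≤ P ts ys - P ts (2 * ts - ys) := by
    have := hmax' ts (2 * ts - ys) hts.1 hts.2
    linarith
  have hf0 : 0 ≤ Φ (P ts ys - P ts (2 * ts - ys)) := hΦ0 _ hD
  have hcf : Continuous (fun s : ℝ => Φ (P s ys - P s (2 * s - ys))) := by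
    apply hΦc.comp
    apply Continuous.sub
    · exact cont.comp (by fun_prop : Continuous fun s : ℝ => (s, ys))
    · exact cont.comp (by fun_prop : Continuous fun s : ℝ => (s, 2 * s - ys))
  have hev : ∀ᶠ s in 𝓝 ts, -(ε / (2 * κ)) < Φ (P s ys - P s (2 * s - ys)) := by
    apply hcf.continuousAt.eventually (lt_mem_nhds _)
    have : 0 < ε / (2 * κ) := div_pos hεpos (by linarith)
    simp only
    linarith
  obtain ⟨δ, hδ, hball⟩ := Metric.eventually_nhds_iff.mp hev
  set s0 : ℝ := max t0 (ts - δ / 2) with hs0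
  have hs0lt : s0 < ts := max_lt hts0 (by linarith)
  have hs0ge : t0 ≤ s0 := le_max_left _ _
  have hode := ode s0 ts ys (ht0.trans hs0ge) hs0lt.le
  have hint : -(ε / (2 * κ)) * (ts - s0) ≤ ∫ s in s0..ts, Φ (P s ys - P s (2 * s - ys)) := by
    have h1 : ∫ _s in s0..ts, (-(ε / (2 * κ))) = (ts - s0) * (-(ε / (2 * κ))) := by
      rw [intervalIntegral.integral_const, smul_eq_mul]
    have h2 : ∫ _s in s0..ts, (-(ε / (2 * κ))) ≤
        ∫ s in s0..ts, Φ (P s ys - P s (2 * s - ys)) := by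
      apply intervalIntegral.integral_mono_on hs0lt.le (by simp) (hcf.intervalIntegrable _ _)
      intro s hs
      apply le_of_lt
      apply hball
      rw [Real.dist_eq, abs_lt]
      have := le_max_right t0 (ts - δ / 2)
      constructor <;> linarith [hs.1, hs.2]
    rw [h1] at h2
    linarith
  have h5 : P ts ys - P s0 ys ≤ ε / 2 * (ts - s0) := by
    rw [hode]
    have h6 : κ * (-(ε / (2 * κ)) * (ts - s0)) ≤
        κ * ∫ s in s0..ts, Φ (P s ys - P s (2 * s - ys)) :=
      mul_le_mul_of_nonneg_left hint hκ.le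
    have h7 : κ * (-(ε / (2 * κ)) * (ts - s0)) = -(ε / 2 * (ts - s0)) := by
      field_simp
    rw [h7] at h6
    linarith
  have h8 := hmax' s0 ys hs0ge (hs0lt.le.trans hts.2)
  have h9 : ε / 2 * (ts - s0) < ε * (ts - s0) := by
    have : 0 < ε * (ts - s0) := mul_pos hεpos (by linarith)
    linarith
  linarith

/-- Truncated derivative of the nonlinearity. -/
noncomputable def om (α : ℝ) (r : ℝ) : ℝ := (α + 1) * (min |r| 2) ^ α

/-- Truncated nonlinearity. -/
noncomputable def Ph (α : ℝ) (r : ℝ) : ℝ := ∫ s in (0 : ℝ)..r, om α s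

variable {α : ℝ}

theorem om_cont (hα : 0 < α) : Continuous (om α) := by
  unfold om
  apply continuous_const.mul
  apply Continuous.rpow_const
  · exact continuous_abs.min continuous_const
  · intro x; right; exact hα.le

theorem om_uc (hα : 0 < α) : UniformContinuous (om α) := by
  apply (om_cont hα).uniformContinuous_of_tendsto_cocompact (x := (α + 1) * 2 ^ α)
  apply Tendsto.congr' (f₁ := fun _ => (α + 1) * 2 ^ α) _ tendsto_const_nhds
  rw [EventuallyEq, Filter.eventually_iff, mem_cocompact]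
  refine ⟨Icc (-2) 2, isCompact_Icc, ?_⟩
  intro x hx
  show (α + 1) * 2 ^ α = om α x
  unfold om
  rw [min_eq_right]
  by_contra hcon
  push Not at hcon
  apply hx
  rw [abs_lt] at hcon
  exact ⟨hcon.1.le, hcon.2.le⟩

theorem om_nonneg (hα : 0 < α) (r : ℝ) : 0 ≤ om α r := by
  unfold om
  apply mul_nonneg (by linarith)
  apply Real.rpow_nonneg
  exact le_min (abs_nonneg _) (by norm_num)

theorem om_le (hα : 0 < α) (r : ℝ) : |om α r| ≤ (α + 1) * 2 ^ α := by
  rw [abs_of_nonneg (om_nonneg hα r)]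
  unfold om
  apply mul_le_mul_of_nonneg_left _ (by linarith)
  exact Real.rpow_le_rpow (le_min (abs_nonneg _) (by norm_num)) (min_le_right _ _) hα.le

theorem Ph_deriv (hα : 0 < α) (s : ℝ) : HasDerivAt (Ph α) (om α s) s := by
  unfold Ph
  exact intervalIntegral.integral_hasDerivAt_right ((om_cont hα).intervalIntegrable _ _)
    ((om_cont hα).stronglyMeasurableAtFilter _ _) (om_cont hα).continuousAt

theorem Ph_neg (α s : ℝ) : Ph α (-s) = -Ph α s := by
  unfold Ph
  have h3 := intervalIntegral.integral_comp_neg (a := 0) (b := s) (f := om α)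
  have h4 : ∀ x, om α (-x) = om α x := by intro x; unfold om; rw [abs_neg]
  simp_rw [h4] at h3
  rw [h3, neg_zero, intervalIntegral.integral_symm]

theorem Ph_nonneg (hα : 0 < α) (s : ℝ) (hs : 0 ≤ s) : 0 ≤ Ph α s := by
  unfold Ph
  exact intervalIntegral.integral_nonneg hs (fun x _ => om_nonneg hα x)

theorem Ph_eq (hα : 0 < α) {s : ℝ} (hs : |s| ≤ 2) : Ph α s = phi α s := by
  unfold Ph
  have h1 : ∫ r in (0 : ℝ)..s, om α r = ∫ r in (0 : ℝ)..s, (α + 1) * |r| ^ α := by
    apply intervalIntegral.integral_congr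
    intro r hr
    simp only [om]
    rw [min_eq_left]
    refine le_trans ?_ hs
    rw [mem_uIcc] at hr
    rcases hr with h1 | h1
    · rw [abs_of_nonneg h1.1]; exact h1.2.trans (le_abs_self _)
    · rw [abs_of_nonpos h1.2, abs_of_nonpos (h1.1.trans h1.2)]; linarith [h1.1]
  rw [h1, intervalIntegral.integral_eq_sub_of_hasDerivAt (f := phi α)
    (fun x _ => hasDerivAt_phi hα x), phi_zero, sub_zero]
  apply Continuous.intervalIntegrable
  apply continuous_const.mul
  exact continuous_abs.rpow_const (fun x => Or.inr hα.le)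

theorem setup_cos {κ α ℓ : ℝ} (hκ : 0 < κ) (hα : 0 < α) (hℓ : 0 < ℓ) :
    Setup κ ((α + 1) * 2 ^ α) (1 + π / ℓ) (Ph α) (om α) (fun y => Real.cos (π / ℓ * y))
      (fun y => -(π / ℓ * Real.sin (π / ℓ * y))) where
  kpos := hκ
  Kpos := by positivity
  Bnn := by positivity
  hΦ := Ph_deriv hα
  hω := om_uc hα
  hωK := om_le hα
  hp := by
    intro y
    have h1 : HasDerivAt (fun y : ℝ => π / ℓ * y) (π / ℓ) y := by
      simpa using (hasDerivAt_id y).const_mul (π / ℓ)
    have h2 := h1.cos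
    have h3 : -Real.sin (π / ℓ * y) * (π / ℓ) = -(π / ℓ * Real.sin (π / ℓ * y)) := by ring
    rw [h3] at h2
    exact h2
  hp1 := by fun_prop
  hp0B := by
    intro y
    have h1 := Real.abs_cos_le_one (π / ℓ * y)
    have h2 : 0 ≤ π / ℓ := by positivity
    linarith
  hp1B := by
    intro y
    have h1 := Real.abs_sin_le_one (π / ℓ * y)
    have h2 : 0 ≤ π / ℓ := by positivity
    rw [abs_neg, abs_mul, abs_of_nonneg h2]
    nlinarith

/-- Existence of a `C¹` solution in characteristic form. -/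
theorem exists_charSol {κ α ℓ : ℝ} (hκ : 0 < κ) (hα : 0 < α) (hℓ : 0 < ℓ) :
    ∃ P D : ℝ → ℝ → ℝ, CharSol κ α ℓ P ∧ Continuous (fun z : ℝ × ℝ => D z.1 z.2) ∧
      (∀ t y, HasDerivAt (fun y => P t y) (D t y) y) ∧
      (∀ t y, P t y = Real.cos (π / ℓ * y) - κ * ∫ s in (0 : ℝ)..t,
        Ph α (P s y - P s (2 * s - y))) ∧
      (∀ t, 0 ≤ t → ∀ y, |P t y| ≤ 1) := by
  have hset := setup_cos hκ hα hℓ
  obtain ⟨P, D, cP, cD, hPD, hP, hlim⟩ := hset.exists_sol
  have cPh : Continuous (Ph α) := hset.cΦ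
  have hπ : π / ℓ * (2 * ℓ) = 2 * π := by field_simp
  have hper : ∀ t y, P t (y + 2 * ℓ) = P t y := by
    have hI : ∀ n t y, It κ (Ph α) (fun y => Real.cos (π / ℓ * y)) n t (y + 2 * ℓ) =
        It κ (Ph α) (fun y => Real.cos (π / ℓ * y)) n t y := by
      intro n
      induction n with
      | zero =>
        intro t y
        show Real.cos (π / ℓ * (y + 2 * ℓ)) = Real.cos (π / ℓ * y)
        rw [mul_add, hπ, Real.cos_add_two_pi]
      | succ n ih =>
        intro t y
        have e1 : ∀ s, It κ (Ph α) (fun y => Real.cos (π / ℓ * y)) n s (2 * s - (y + 2 * ℓ)) =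
            It κ (Ph α) (fun y => Real.cos (π / ℓ * y)) n s (2 * s - y) := by
          intro s
          have := ih s (2 * s - (y + 2 * ℓ))
          rw [← this]
          congr 1; ring
        show Real.cos (π / ℓ * (y + 2 * ℓ)) - κ * ∫ s in (0 : ℝ)..t,
          Ph α (It κ (Ph α) (fun y => Real.cos (π / ℓ * y)) n s (y + 2 * ℓ) -
          It κ (Ph α) (fun y => Real.cos (π / ℓ * y)) n s (2 * s - (y + 2 * ℓ))) =
          Real.cos (π / ℓ * y) - κ * ∫ s in (0 : ℝ)..t,
          Ph α (It κ (Ph α) (fun y => Real.cos (π / ℓ * y)) n s y -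
          It κ (Ph α) (fun y => Real.cos (π / ℓ * y)) n s (2 * s - y))
        simp_rw [e1, ih]
        rw [mul_add, hπ, Real.cos_add_two_pi]
    intro t y
    have h1 := hlim t (y + 2 * ℓ)
    simp_rw [hI] at h1
    exact tendsto_nhds_unique h1 (hlim t y)
  have cI : ∀ y, Continuous (fun s => Ph α (P s y - P s (2 * s - y))) := by
    intro y
    apply cPh.comp
    apply Continuous.sub
    · exact cP.comp (by fun_prop : Continuous fun s : ℝ => (s, y))
    · exact cP.comp (by fun_prop : Continuous fun s : ℝ => (s, 2 * s - y))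
  have hode : ∀ t1 t2 y, P t2 y - P t1 y =
      -κ * ∫ s in t1..t2, Ph α (P s y - P s (2 * s - y)) := by
    intro t1 t2 y
    rw [hP t2 y, hP t1 y]
    have h1 := intervalIntegral.integral_interval_sub_left ((cI y).intervalIntegrable (μ := volume) 0 t2)
      ((cI y).intervalIntegrable (μ := volume) 0 t1)
    rw [← h1]
    ring
  have h0 : ∀ y, P 0 y = Real.cos (π / ℓ * y) := by
    intro y
    rw [hP 0 y]; simp
  have hup : ∀ t, 0 ≤ t → ∀ y, P t y ≤ 1 :=
    max_principle hκ hℓ cPh (Ph_nonneg hα) cP hper (fun t1 t2 y _ _ => hode t1 t2 y) le_rfl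
      (fun y => by rw [h0]; exact Real.cos_le_one _)
  have hdown : ∀ t, 0 ≤ t → ∀ y, -P t y ≤ 1 := by
    apply max_principle (P := fun t y => -P t y) hκ hℓ cPh (Ph_nonneg hα) cP.neg
      (fun t y => by rw [hper]) _ le_rfl
      (fun y => by rw [h0]; linarith [Real.neg_one_le_cos (π / ℓ * y)])
    intro t1 t2 y _ _
    have h3 := hode t1 t2 y
    have h4 : ∀ s, Ph α (-P s y - -P s (2 * s - y)) = -Ph α (P s y - P s (2 * s - y)) := by
      intro s
      rw [← Ph_neg]
      congr 1; ring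
    simp_rw [h4]
    rw [intervalIntegral.integral_neg]
    linarith
  have hb : ∀ t, 0 ≤ t → ∀ y, |P t y| ≤ 1 := by
    intro t ht y
    rw [abs_le]
    constructor
    · linarith [hdown t ht y]
    · exact hup t ht y
  refine ⟨P, D, ?_, cD, hPD, hP, hb⟩
  refine ⟨hκ, hα, hℓ, cP, hper, ?_, ?_⟩
  · intro t1 t2 y ht1 ht12
    rw [hode t1 t2 y]
    congr 1
    apply intervalIntegral.integral_congr
    intro s hs
    rw [uIcc_of_le ht12] at hs
    simp only
    apply Ph_eq hα
    have b1 := abs_le.mp (hb s (ht1.trans hs.1) y)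
    have b2 := abs_le.mp (hb s (ht1.trans hs.1) (2 * s - y))
    rw [abs_le]
    constructor <;> linarith
  · intro t _
    have cPt : Continuous (fun y => Real.cos (π / ℓ * y)) := by fun_prop
    have cJ : Continuous (fun z : ℝ × ℝ => Ph α (P z.2 z.1 - P z.2 (2 * z.2 - z.1))) := by
      apply cPh.comp
      apply Continuous.sub
      · exact cP.comp (by fun_prop : Continuous fun z : ℝ × ℝ => (z.2, z.1))
      · exact cP.comp (by fun_prop : Continuous fun z : ℝ × ℝ => (z.2, 2 * z.2 - z.1))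
    have cJ2 : Continuous (fun y => κ * ∫ s in (0 : ℝ)..t, Ph α (P s y - P s (2 * s - y))) := by
      apply continuous_const.mul
      apply intervalIntegral.continuous_parametric_intervalIntegral_of_continuous'
      exact cJ
    simp_rw [hP t]
    rw [intervalIntegral.integral_sub (cPt.intervalIntegrable _ _) (cJ2.intervalIntegrable _ _),
      intervalIntegral.integral_const_mul, integral_swap_cont cJ]
    have e1 : ∀ s, ∫ y in (0 : ℝ)..(2 * ℓ), Ph α (P s y - P s (2 * s - y)) = 0 := by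
      intro s
      have e2 : ∫ y in (0 : ℝ)..(2 * ℓ), Ph α (P s (2 * s - y) - P s (2 * s - (2 * s - y))) =
          ∫ y in (0 : ℝ)..(2 * ℓ), Ph α (P s y - P s (2 * s - y)) := by
        apply integral_reflect (g := fun y => Ph α (P s y - P s (2 * s - y)))
        intro y
        simp only
        rw [hper]
        have := hper s (2 * s - (y + 2 * ℓ))
        rw [← this]
        congr 3; ring
      have e3 : ∀ y, Ph α (P s (2 * s - y) - P s (2 * s - (2 * s - y))) =
          -Ph α (P s y - P s (2 * s - y)) := by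
        intro y
        rw [← Ph_neg]
        congr 1
        rw [show 2 * s - (2 * s - y) = y by ring]
        ring
      simp_rw [e3] at e2
      rw [intervalIntegral.integral_neg] at e2
      linarith
    simp_rw [e1]
    rw [intervalIntegral.integral_zero, mul_zero, sub_zero]
    have hπℓ : π / ℓ ≠ 0 := by positivity
    rw [intervalIntegral.integral_comp_mul_left (f := Real.cos) hπℓ, integral_cos, hπ]
    simp

end Pool.Agent.Helper39_Wave
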